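import Pool.Agent.RamseyH5C.Hosts

set_option autoImplicit false

/-!
# Embeddings into large sets, refined
-/

namespace Pool.Agent.RamseyH5

open Finset

section

open scoped Classical

variable {V W : Type}

/-- Removing vertices of small degree. -/
theorem clean (G : SimpleGraph W) (Δ : ℕ) : ∀ (N : ℕ) (Q : Finset W), Q.card = N →
    ∃ L ⊆ Q, (∀ x ∈ Q \ L, Δ ≤ 8 * (nb G (Q \ L) x).card) ∧
      4 * ∑ x ∈ L, (nb G L x).card ≤ Δ * L.card := by
  intro N
  induction N with
  | zero =>
    intro Q hQ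
    refine ⟨∅, empty_subset _, ?_, by simp⟩
    intro x hx
    rw [card_eq_zero] at hQ
    rw [hQ] at hx
    simp at hx
  | succ N ih =>
    intro Q hQ
    by_cases hall : ∀ x ∈ Q, Δ ≤ 8 * (nb G Q x).card
    · refine ⟨∅, empty_subset _, ?_, by simp⟩
      rw [sdiff_empty]
      exact hall
    · push Not at hall
      obtain ⟨x, hxQ, hx⟩ := hall
      obtain ⟨L, hL, h1, h2⟩ := ih (Q.erase x) (by rw [card_erase_of_mem hxQ, hQ]; rfl)
      have hxL : x ∉ L := fun h => (mem_erase.1 (hL h)).1 rfl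
      have hLQ : L ⊆ Q := hL.trans (erase_subset x Q)
      have he : Q \ insert x L = Q.erase x \ L := by
        ext y
        simp only [mem_sdiff, mem_insert, mem_erase]
        tauto
      refine ⟨insert x L, insert_subset hxQ hLQ, ?_, ?_⟩
      · rw [he]
        exact h1
      · have h3 : ∀ y ∈ L, (nb G (insert x L) y).card =
            (nb G L y).card + (if G.Adj y x then 1 else 0) := by
          intro y hy
          rw [nb, filter_insert]
          split_ifs with h
          · rw [card_insert_of_notMem (fun h' => hxL (mem_filter.1 h').1)]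
            rfl
          · rfl
        have h4 : nb G (insert x L) x = nb G L x := by
          rw [nb, filter_insert, if_neg (G.loopless.irrefl x)]
          rfl
        have h5 : ∑ y ∈ L, (if G.Adj y x then 1 else 0) = (nb G L x).card := by
          rw [nb, card_filter]
          refine sum_congr rfl fun y _ => ?_
          simp only [G.adj_comm y x]
        rw [sum_insert hxL, h4, sum_congr rfl h3, sum_add_distrib, h5,
          card_insert_of_notMem hxL]
        have h6 : (nb G L x).card ≤ (nb G Q x).card := card_le_card (nb_mono G hLQ x)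
        have h7 : Δ * (L.card + 1) = Δ * L.card + Δ := by ring
        omega

/-- A large set contains a large subset of large minimum degree. -/
theorem clean' (G : SimpleGraph W) (Δ M : ℕ) (hΔ : 1 ≤ Δ)
    (hf : ∀ Q : Finset W, (Q.filter (fun x => (nb G Q x).card < Δ)).card < M) (Q : Finset W) :
    ∃ Q' ⊆ Q, Q.card ≤ Q'.card + 2 * M ∧ (∀ x ∈ Q', Δ ≤ 8 * (nb G Q' x).card) := by
  obtain ⟨L, hL, h1, h2⟩ := clean G Δ Q.card Q rfl
  refine ⟨Q \ L, sdiff_subset, ?_, h1⟩
  have h3 := hf L
  have h4 : Δ * (L.card - (L.filter (fun x => (nb G L x).card < Δ)).card) ≤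
      ∑ x ∈ L, (nb G L x).card := by
    have h5 := le_card_sdiff (L.filter (fun x => (nb G L x).card < Δ)) L
    calc Δ * (L.card - (L.filter (fun x => (nb G L x).card < Δ)).card)
        ≤ Δ * (L \ L.filter (fun x => (nb G L x).card < Δ)).card := Nat.mul_le_mul_left _ h5
      _ = ∑ _x ∈ L \ L.filter (fun x => (nb G L x).card < Δ), Δ := by
          rw [sum_const, smul_eq_mul]
          ring
      _ ≤ ∑ x ∈ L \ L.filter (fun x => (nb G L x).card < Δ), (nb G L x).card := by
          refine sum_le_sum fun x hx => ?_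
          obtain ⟨g1, g2⟩ := mem_sdiff.1 hx
          by_contra g3
          exact g2 (mem_filter.2 ⟨g1, by omega⟩)
      _ ≤ _ := sum_le_sum_of_subset sdiff_subset
  have h6 : Δ * (4 * (L.card - (L.filter (fun x => (nb G L x).card < Δ)).card)) ≤
      Δ * L.card := by
    calc Δ * (4 * (L.card - (L.filter (fun x => (nb G L x).card < Δ)).card))
        = 4 * (Δ * (L.card - (L.filter (fun x => (nb G L x).card < Δ)).card)) := by ring
      _ ≤ 4 * ∑ x ∈ L, (nb G L x).card := Nat.mul_le_mul_left _ h4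
      _ ≤ _ := h2
  have h7 := Nat.le_of_mul_le_mul_left h6 hΔ
  have h8 := card_sdiff_add_card_eq_card hL
  omega

/-- Embedding into a large set, all of whose degrees are large. -/
theorem cbig [Nonempty W] {G : SimpleGraph W} (hG : ¬ H5.IsContained G)
    (H : SimpleGraph V) (PA PB : Finset V) (σ n q Δ M Rb N₀ : ℕ) (hσ1 : 1 ≤ σ)
    (hPBD : Dg H PB σ) (hPA : PA.card ≤ n) (hPB : PB.card ≤ n) (hnq : n ≤ q)
    (hPAq : EA H G PA q) (hPBR : EA H G PB Rb)
    (hn1 : 1 ≤ n) (hnΔ : 16384 * q ≤ Δ) (hσΔ : 8 * σ ≤ Δ)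
    (hRb : 32768 * (σ ^ 2 * Rb) ≤ Δ ^ 3)
    (hf : ∀ Q : Finset W, (Q.filter (fun x => (nb G Q x).card < Δ)).card < M)
    (hN₀ : 18 * M ≤ N₀) (hM : 1 ≤ M) (Q : Finset W) (hQ : N₀ ≤ Q.card) :
    Emb H G (PA ∪ PB) Q := by
  obtain ⟨Q', hQ', hQ'c, hmin⟩ := clean' G Δ M (by omega) hf Q
  refine Emb.mono ?_ hQ'
  by_contra hno
  have hL := hf Q'
  have hsum : ∑ x ∈ Q', (Pd G Q' x).card ≤ Q'.card * Rb := by
    calc ∑ x ∈ Q', (Pd G Q' x).card ≤ ∑ _x ∈ Q', Rb := by
          refine sum_le_sum fun x hx => ?_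
          refine (pd_lt hG hPB hnq hPAq hPBR hno x ?_).le
          have := hmin x hx
          omega
      _ = _ := by rw [sum_const, smul_eq_mul]
  refine countM hG Q' σ q Δ Rb hσ1 (by omega) (by omega) (by omega) (by omega) hσΔ
    (by rw [Nat.mul_assoc]; exact hRb) hsum ?_ ?_
  · intro a haQ hda Z hZ hZc hZd
    by_contra hcon
    push Not at hcon
    obtain ⟨X, hXP, hXc, e1⟩ := (hPAq _ hcon.le).image
    have hX3 : X.card * (2 + 1) ≤ n * 3 := Nat.mul_le_mul_right _ (hXc.trans hPA)
    obtain ⟨Z', hZ', hZ'c, hsep⟩ := pick G Z X 2 (Z.card - 3 * n)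
      (fun y hy => nb_PP hG (mem_Pd.1 (hXP hy)).2.1 (mem_Pd.1 (hXP hy)).2.2 _
        (fun z hz => (mem_nb.1 (hZ hz)).2)) (by omega)
    have hdiv : 8 * (σ * ((nb G Q' a).card / (8 * σ))) ≤ (nb G Q' a).card := by
      calc 8 * (σ * ((nb G Q' a).card / (8 * σ))) = 8 * σ * ((nb G Q' a).card / (8 * σ)) := by
            ring
        _ ≤ _ := Nat.mul_div_le _ _
    have e2 : Emb H G PB Z' := embed_degenerate H G PB σ hPBD Z' ((nb G Q' a).card / (8 * σ))
      (fun z hz => (card_le_card (nb_mono G hZ' z)).trans (hZd z (hZ' hz))) (by omega)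
    exact hno ((e1.union e2 hsep).mono (union_subset (hXP.trans (Pd_subset G Q' a))
      (hZ'.trans (hZ.trans (nb_subset G Q' a)))))
  · intro Wa hWa hWac Z hZ hZc hZd
    have hAB : (PA ∪ PB).card ≤ 2 * q := by
      have := card_union_le PA PB
      omega
    have hdiv : 8 * (q * (Wa.card / (8 * q))) ≤ Wa.card := by
      calc 8 * (q * (Wa.card / (8 * q))) = 8 * q * (Wa.card / (8 * q)) := by ring
        _ ≤ _ := Nat.mul_div_le _ _
    refine hno ((embed_degenerate H G (PA ∪ PB) (2 * q)
      ((Dg_card H _).mono subset_rfl hAB) Z (Wa.card / (8 * q)) hZd ?_).mono (hZ.trans hWa))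
    have : 2 * q * (Wa.card / (8 * q)) = 2 * (q * (Wa.card / (8 * q))) := by ring
    omega

end

end Pool.Agent.RamseyH5
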