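import Pool.Agent.RamseyH5C.WithS

set_option autoImplicit false

/-!
# The two theorems with a small set of arbitrary vertices
-/

namespace Pool.Agent.RamseyH5

open Finset

section

open scoped Classical

variable {V W : Type}

theorem csparseS [Nonempty W] [Fintype V] {G : SimpleGraph W} (hG : ¬ H5.IsContained G)
    {H : SimpleGraph V} {S A B : Finset V} {s d D σ M μ : ℕ} (hs1 : 1 ≤ s) (hd1 : 1 ≤ d)
    (hD1 : 1 ≤ D) (hDσ : D ≤ σ) (hσμ : σ ^ 2 ≤ 4 * μ) (hμ1 : 1 ≤ μ) (hS : S.card ≤ s)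
    (hAD : Dg H A d) (hBD : Dg H B D) (hσ : Dg H (univ \ S) σ)
    (hcov : ∀ v, v ∈ S ∪ (A ∪ B)) (hVμ : Fintype.card V ≤ μ)
    (hμ : ∑ v : V, (univ.filter (fun u => H.Adj v u)).card ≤ μ)
    (hMμ : 1125899906842624 * (d * μ) ≤ M) (hMe : 1125899906842624 * (σ * ed d) ≤ M)
    (hMse : 4194304 * (s * ed d) ≤ M)
    (hMD : 1180591620717411303424 * (σ ^ 2 * D ^ 3) ≤ M ^ 2)
    (hMs : 1152921504606846976 * s ^ 5 ≤ M ^ 2)
    (U : Finset W) (hU : 256 * M ≤ U.card) : ∃ Z : Finset W, Emb H G univ Z := by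
  have hdμ1 : 1 ≤ d * μ := Nat.mul_pos hd1 hμ1
  have hσ1 : 1 ≤ σ := hD1.trans hDσ
  have hsD2 : s ^ 3 * D ^ 2 ≤ s ^ 5 + σ ^ 2 * D ^ 3 := by
    rcases Nat.le_total D s with h | h
    · calc s ^ 3 * D ^ 2 ≤ s ^ 3 * s ^ 2 := Nat.mul_le_mul_left _ (Nat.pow_le_pow_left h 2)
        _ = s ^ 5 := by ring
        _ ≤ _ := Nat.le_add_right _ _
    · calc s ^ 3 * D ^ 2 ≤ D ^ 3 * D ^ 2 := Nat.mul_le_mul_right _ (Nat.pow_le_pow_left h 3)
        _ = D ^ 2 * D ^ 3 := by ring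
        _ ≤ σ ^ 2 * D ^ 3 := Nat.mul_le_mul_right _ (Nat.pow_le_pow_left hDσ 2)
        _ ≤ _ := Nat.le_add_left _ _
  have hMsD : 144115188075855872 * (s ^ 3 * D ^ 2) ≤ M ^ 2 := by omega
  have hMsD' : 262144 * (s * D) ≤ M := by
    by_contra hc
    push Not at hc
    have h1 := Nat.pow_lt_pow_left hc (n := 2) (by norm_num)
    have h2 : (262144 * (s * D)) ^ 2 ≤ 144115188075855872 * (s ^ 3 * D ^ 2) := by
      calc (262144 * (s * D)) ^ 2 = 68719476736 * (s ^ 2 * D ^ 2) := by ring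
        _ ≤ 144115188075855872 * (s ^ 3 * D ^ 2) :=
            Nat.mul_le_mul (by norm_num) (Nat.mul_le_mul_right _
              (Nat.pow_le_pow_right hs1 (by norm_num)))
    omega
  have hp : PDat H S A B s d D M μ :=
    ⟨hs1, hd1, hD1, hμ1, hS, hAD, hBD, hcov, hVμ, hμ, by omega, hMse, by omega, hMsD, hMsD'⟩
  refine withS hG hp (fun Y hY => ?_) U hU
  have hne : Nonempty {x // x ∈ Y} := by
    obtain ⟨x, hx⟩ := card_pos.1 (by omega : 0 < Y.card)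
    exact ⟨⟨x, hx⟩⟩
  have hσ' : Dg (Sub H (univ \ S)) univ σ := by
    have h1 := Dg_part hσ (univ \ S)
    refine h1.mono ?_ le_rfl
    intro v _
    exact mem_filter.2 ⟨mem_univ v, v.2⟩
  have hM4096 : M ≤ 4096 * (Y.card / 256) := by omega
  have hdat : SDat (Sub H (univ \ S)) (univ.filter (fun v => v.1 ∈ A))
      (univ.filter (fun v => v.1 ∈ B)) d D σ (Y.card / 256) μ := by
    refine ⟨hd1, hD1, hDσ, Dg_part hAD _, Dg_part hBD _, hσ', hσμ, ?_, hμ1, ?_,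
      (sub_deg_sum H _).trans hμ, by omega, by omega, ?_⟩
    · intro v
      have h1 := hcov v.1
      have h2 := (mem_sdiff.1 v.2).2
      simp only [mem_union, mem_filter, mem_univ, true_and] at h1 ⊢
      tauto
    · rw [Fintype.card_coe]
      exact (card_le_univ _).trans hVμ
    · have h1 : M ^ 2 ≤ 16777216 * (Y.card / 256) ^ 2 := by
        calc M ^ 2 ≤ (4096 * (Y.card / 256)) ^ 2 := Nat.pow_le_pow_left hM4096 2
          _ = _ := by ring
      omega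
  obtain ⟨Z, hZ⟩ := csparse (sub_free hG Y) hdat univ (by
    rw [card_univ, Fintype.card_coe]
    omega)
  exact emb_of_restrict (emb_of_sub hZ)

theorem cpartS {k f d C₁ : ℕ} (hd1 : 1 ≤ d) (hk : SKs d (k + 2) f C₁) [Nonempty W] [Fintype V]
    {G : SimpleGraph W} (hG : ¬ H5.IsContained G) {H : SimpleGraph V} {S : Finset V}
    {c : V → Fin (k + 2)} {s D σ M μ : ℕ} (hs1 : 1 ≤ s) (hS : S.card ≤ s)
    (hc : ∀ (i : Fin (k + 2)) (T : Finset V), (∀ v ∈ T, v ∉ S ∧ c v = i) → T.Nonempty →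
      ∃ v ∈ T, (T.filter (fun u => H.Adj v u)).card ≤ if i.1 = 0 then D else d)
    (hσ : Dg H (univ \ S) σ) (hσμ : σ ^ 2 ≤ 4 * μ) (hD1 : 1 ≤ D) (hDσ : D ≤ σ)
    (hDμ : σ ^ 2 * D ^ 3 ≤ μ ^ 2) (hμ1 : 1 ≤ μ) (hVμ : Fintype.card V ≤ μ)
    (hμ : ∑ v : V, (univ.filter (fun u => H.Adj v u)).card ≤ μ)
    (hMμ : 33554432 * (d * μ) ≤ M) (hMe : 4194304 * (s * ed d) ≤ M)
    (hMs : 144115188075855872 * s ^ 5 ≤ M ^ 2)
    (hMsD : 144115188075855872 * (s ^ 3 * σ ^ 2) ≤ M ^ 2)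
    (hMf : C₁ * (μ ^ (2 * f + 2) + μ ^ 2 * σ ^ (5 * f)) * 8 ^ (2 * f + 2) ≤ M ^ (2 * f + 2))
    (U : Finset W) (hU : 256 * M ≤ U.card) : ∃ Z : Finset W, Emb H G univ Z := by
  have hσ1 : 1 ≤ σ := hD1.trans hDσ
  have hMD : 262144 * (s * σ) ≤ M := by
    by_contra hc
    push Not at hc
    have h1 := Nat.pow_lt_pow_left hc (n := 2) (by norm_num)
    have h2 : (262144 * (s * σ)) ^ 2 ≤ 144115188075855872 * (s ^ 3 * σ ^ 2) := by
      calc (262144 * (s * σ)) ^ 2 = 68719476736 * (s ^ 2 * σ ^ 2) := by ring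
        _ ≤ 144115188075855872 * (s ^ 3 * σ ^ 2) :=
            Nat.mul_le_mul (by norm_num) (Nat.mul_le_mul_right _
              (Nat.pow_le_pow_right hs1 (by norm_num)))
    omega
  have hp : PDat H S (univ.filter (fun v => v ∉ S ∧ c v = Fin.last (k + 1)))
      (univ.filter (fun v => v ∉ S ∧ c v ≠ Fin.last (k + 1))) s d σ M μ := by
    refine ⟨hs1, hd1, hσ1, hμ1, hS, ?_, ?_, ?_, hVμ, hμ, hMμ, hMe, hMs, hMsD, hMD⟩
    · intro T hT hTne
      obtain ⟨v, hv, hvd⟩ := hc (Fin.last (k + 1)) T (fun v hv => (mem_filter.1 (hT hv)).2) hTne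
      refine ⟨v, hv, ?_⟩
      rw [if_neg (by rw [Fin.val_last]; omega)] at hvd
      exact hvd
    · intro T hT hTne
      exact hσ T (fun v hv => mem_sdiff.2 ⟨mem_univ v, (mem_filter.1 (hT hv)).2.1⟩) hTne
    · intro v
      simp only [mem_union, mem_filter, mem_univ, true_and]
      tauto
  have hdμ1 : 1 ≤ d * μ := Nat.mul_pos hd1 hμ1
  refine withS hG hp (fun Y hY => ?_) U hU
  have hparts : PartsD (Sub H (univ \ S)) (k + 2) d D := by
    refine ⟨fun v => c v.1, fun i T hT hTne => ?_⟩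
    obtain ⟨v, hv, hvd⟩ := hc i (T.map (Function.Embedding.subtype _)) (by
      intro v hv
      obtain ⟨u, hu, rfl⟩ := mem_map.1 hv
      exact ⟨(mem_sdiff.1 u.2).2, hT u hu⟩) (hTne.map)
    obtain ⟨u, hu, rfl⟩ := mem_map.1 hv
    exact ⟨u, hu, (sub_filter_card H _ T u).trans hvd⟩
  have hσ' : Dg (Sub H (univ \ S)) univ σ := by
    have h1 := Dg_part hσ (univ \ S)
    refine h1.mono ?_ le_rfl
    intro v _
    exact mem_filter.2 ⟨mem_univ v, v.2⟩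
  refine emb_of_restrict (hk {x // x ∈ univ \ S} W (Sub H (univ \ S)) G hG μ σ D hparts hD1 hDσ
    hDμ hμ1 ?_ ((sub_deg_sum H _).trans hμ) hσ' hσμ Y ?_)
  · rw [Fintype.card_coe]
    exact (card_le_univ _).trans hVμ
  · have h8 : 0 < 8 ^ (2 * f + 2) := by positivity
    refine Nat.le_of_mul_le_mul_right ?_ h8
    calc C₁ * (μ ^ (2 * f + 2) + μ ^ 2 * σ ^ (5 * f)) * 8 ^ (2 * f + 2)
        ≤ M ^ (2 * f + 2) := hMf
      _ ≤ (8 * Y.card) ^ (2 * f + 2) := Nat.pow_le_pow_left hY _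
      _ = _ := by
          rw [mul_pow]
          ring

end

end Pool.Agent.RamseyH5
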