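import Pool.Agent.RamseyH5C.Clean

set_option autoImplicit false

/-!
# The refined join step
-/

namespace Pool.Agent.RamseyH5

open Finset

section

open scoped Classical

variable {V W : Type}

theorem half_sum (b : ℕ) : ∀ J : ℕ, ∑ i ∈ range J, b / 2 ^ (i + 1) + b / 2 ^ J ≤ b := by
  intro J
  induction J with
  | zero => simp
  | succ J ih =>
    rw [sum_range_succ]
    have h1 : 2 * (b / 2 ^ (J + 1)) ≤ b / 2 ^ J := by
      rw [Nat.le_div_iff_mul_le (by positivity)]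
      calc 2 * (b / 2 ^ (J + 1)) * 2 ^ J = 2 ^ (J + 1) * (b / 2 ^ (J + 1)) := by
            rw [pow_succ]
            ring
        _ ≤ b := Nat.mul_div_le _ _
    omega

theorem half_sum' (b J : ℕ) : ∑ i ∈ range J, b / 2 ^ i ≤ 2 * b := by
  rcases Nat.eq_zero_or_pos J with h | h
  · rw [h]
    simp
  · obtain ⟨J', rfl⟩ : ∃ J', J = J' + 1 := ⟨J - 1, by omega⟩
    rw [sum_range_succ']
    have := (Nat.le_add_right _ _).trans (half_sum b J')
    rw [pow_zero, Nat.div_one]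
    omega

theorem div_mul_le (a b c : ℕ) : a / b * c ≤ a * c / b := by
  rcases Nat.eq_zero_or_pos b with h | h
  · rw [h]
    simp
  · rw [Nat.le_div_iff_mul_le h]
    calc a / b * c * b = b * (a / b) * c := by ring
      _ ≤ a * c := Nat.mul_le_mul_right _ (Nat.mul_div_le _ _)

theorem rem_sum [Fintype V] {H : SimpleGraph V} {M μ σ d e E J : ℕ} {Rc : ℕ → ℕ} (hE : 1 ≤ E)
    (hμ : ∑ v : V, (univ.filter (fun u => H.Adj v u)).card ≤ μ) (hdμ1 : 1 ≤ d * μ)
    (hdμ : 67108864 * (d * μ) ≤ M) (he : 65536 * e ≤ E)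
    (hRc : ∀ i < J, 2097152 * (σ ^ 2 * Rc i) ≤ E * (2 ^ (i + 1) * E) ^ 2) :
    32 * ∑ i ∈ range J, rem σ M (2 ^ (i + 1) * E)
      (64 * ((Cr H M (2 ^ i * (2 * E))).card * d) + e) (Rc i) ≤ M := by
  have h1 := q_sum (H := H) (M := M) (2 * E) J 16 d e (by omega) hμ
  have h2 : 2 * 16 * (e * M) / (2 * E) ≤ M / 4096 := by
    rw [Nat.le_div_iff_mul_le (by norm_num)]
    calc 2 * 16 * (e * M) / (2 * E) * 4096 ≤ (2 * 16 * (e * M) * 4096) / (2 * E) :=
          div_mul_le _ _ _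
      _ ≤ M := by
          apply Nat.div_le_of_le_mul
          calc 2 * 16 * (e * M) * 4096 = 2 * (65536 * e * M) := by ring
            _ ≤ 2 * (E * M) := Nat.mul_le_mul_left _ (Nat.mul_le_mul_right _ he)
            _ = 2 * E * M := by ring
  have h3 : ∀ i < J, rem σ M (2 ^ (i + 1) * E)
      (64 * ((Cr H M (2 ^ i * (2 * E))).card * d) + e) (Rc i) ≤
      2 * (16 * ((64 * ((Cr H M (2 ^ i * (2 * E))).card * d) + e) * M) / (2 ^ i * (2 * E))) +
        M / 64 / 2 ^ (i + 1) := by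
    intro i hi
    have hx : 2 ^ (i + 1) * E = 2 ^ i * (2 * E) := by
      rw [pow_succ]
      ring
    have hxpos : 0 < 2 ^ (i + 1) * E := Nat.mul_pos (by positivity) hE
    rw [rem]
    refine Nat.add_le_add (by rw [hx]) ?_
    rw [Nat.div_div_eq_div_mul, Nat.le_div_iff_mul_le (by positivity)]
    refine (div_mul_le _ _ _).trans ?_
    apply Nat.div_le_of_le_mul
    calc 32768 * σ ^ 2 * (M * Rc i) * (64 * 2 ^ (i + 1))
        = 2 ^ (i + 1) * M * (2097152 * (σ ^ 2 * Rc i)) := by ring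
      _ ≤ 2 ^ (i + 1) * M * (E * (2 ^ (i + 1) * E) ^ 2) := Nat.mul_le_mul_left _ (hRc i hi)
      _ = (2 ^ (i + 1) * E) ^ 3 * M := by ring
  have h4 : ∑ i ∈ range J, rem σ M (2 ^ (i + 1) * E)
      (64 * ((Cr H M (2 ^ i * (2 * E))).card * d) + e) (Rc i) ≤
      2 * ∑ i ∈ range J, 16 * ((64 * ((Cr H M (2 ^ i * (2 * E))).card * d) + e) * M) /
        (2 ^ i * (2 * E)) + ∑ i ∈ range J, M / 64 / 2 ^ (i + 1) := by
    rw [mul_sum, ← sum_add_distrib]
    exact sum_le_sum fun i hi => h3 i (mem_range.1 hi)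
  have h5 := (Nat.le_add_right _ _).trans (half_sum (M / 64) J)
  omega

/-- Data of the graph to be embedded. -/
structure CDat (H : SimpleGraph V) (A B : Finset V) (d σ M μ r : ℕ) [Fintype V] : Prop where
  hd1 : 1 ≤ d
  hAD : Dg H A d
  hcov : ∀ v, v ∈ A ∪ B
  hσ1 : 1 ≤ σ
  hσ : Dg H univ σ
  hσμ : σ ^ 2 ≤ 4 * μ
  hμ1 : 1 ≤ μ
  hVμ : Fintype.card V ≤ μ
  hμ : ∑ v : V, (univ.filter (fun u => H.Adj v u)).card ≤ μ
  hMμ : 1073741824 * (d * μ) ≤ M
  hMe : 1073741824 * (σ * ed d) ≤ M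
  hN : 1152921504606846976 * (σ ^ 5 * r) ≤ M ^ 3

/-- The size of the sets into which the first part of the core embeds. -/
noncomputable def qf [Fintype V] (H : SimpleGraph V) (M d x : ℕ) : ℕ :=
  64 * ((Cr H M x).card * d) + ed d

theorem qf_mono [Fintype V] (H : SimpleGraph V) (M d : ℕ) {x y : ℕ} (h : x ≤ y) :
    qf H M d x ≤ qf H M d y := by
  rw [qf, qf]
  have h1 := card_le_card (Cr_mono H M h)
  have h2 := Nat.mul_le_mul_right d h1
  omega

theorem qf_small [Fintype V] {H : SimpleGraph V} {M μ d x : ℕ} (hμ1 : 1 ≤ μ)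
    (hμ : ∑ v : V, (univ.filter (fun u => H.Adj v u)).card ≤ μ)
    (hMμ : 1073741824 * (d * μ) ≤ M) (he : 131072 * ed d ≤ x) :
    65536 * qf H M d x ≤ x := by
  have h0 := Cr_card (H := H) (M := M) x hμ
  have h1 : 16 * μ * (67108864 * ((Cr H M x).card * d)) ≤ 16 * μ * x := by
    calc 16 * μ * (67108864 * ((Cr H M x).card * d))
        = (Cr H M x).card * (1073741824 * (d * μ)) := by ring
      _ ≤ (Cr H M x).card * M := Nat.mul_le_mul_left _ hMμ
      _ ≤ _ := h0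
  have h2 := Nat.le_of_mul_le_mul_left h1 (by omega)
  rw [qf]
  omega

/-- The scale of the starting degree. -/
theorem exists_scale (E Δ : ℕ) (hE : 1 ≤ E) (h : E < Δ) :
    ∃ J, Δ ≤ 2 ^ J * E ∧ 2 ^ J * E ≤ 2 * Δ := by
  have hex : ∃ J, Δ ≤ 2 ^ J * E := by
    refine ⟨Δ, ?_⟩
    calc Δ ≤ 2 ^ Δ := Nat.lt_two_pow_self.le
      _ ≤ 2 ^ Δ * E := Nat.le_mul_of_pos_right _ hE
  refine ⟨Nat.find hex, Nat.find_spec hex, ?_⟩
  have h1 := fun m (hm : m < Nat.find hex) => Nat.find_min hex hm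
  rcases hk : Nat.find hex with _ | J
  · have h2 := Nat.find_spec hex
    rw [hk] at h2
    omega
  · rw [hk] at h1
    have h2 := h1 J (Nat.lt_succ_self J)
    rw [pow_succ]
    have : 2 ^ J * 2 * E = 2 * (2 ^ J * E) := by ring
    omega

/-- The extremal degree. -/
theorem exists_extremal (G : SimpleGraph W) (U : Finset W) (M : ℕ) (hM : 1 ≤ M)
    (hU : M ≤ U.card) : ∃ Δ, (∀ Q : Finset W,
      (Q.filter (fun x => (nb G Q x).card < Δ)).card < M) ∧
      ∃ R : Finset W, R.card = M ∧ ∀ x ∈ R, (nb G R x).card ≤ Δ := by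
  have hex : ∃ Δ, ¬ ∀ Q : Finset W, (Q.filter (fun x => (nb G Q x).card < Δ)).card < M := by
    refine ⟨U.card + 1, fun hall => ?_⟩
    have h1 := hall U
    have h2 : U.filter (fun x => (nb G U x).card < U.card + 1) = U := by
      refine filter_true_of_mem fun x _ => ?_
      exact Nat.lt_succ_of_le (card_le_card (nb_subset G U x))
    rw [h2] at h1
    omega
  have h1 := Nat.find_spec hex
  have h2 := fun m (hm : m < Nat.find hex) => Nat.find_min hex hm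
  rcases hk : Nat.find hex with _ | Δ
  · exfalso
    rw [hk] at h1
    refine h1 fun Q => ?_
    have h3 : Q.filter (fun x => (nb G Q x).card < 0) = ∅ := by
      rw [filter_eq_empty_iff]
      exact fun x _ => Nat.not_lt_zero _
    rw [h3, card_empty]
    omega
  · rw [hk] at h1 h2
    refine ⟨Δ, not_not.1 (h2 Δ (Nat.lt_succ_self Δ)), ?_⟩
    push Not at h1
    obtain ⟨Q, hQ⟩ := h1
    obtain ⟨R, hR, hRc⟩ := exists_subset_card_eq hQ
    refine ⟨R, hRc, fun x hx => ?_⟩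
    have h3 := (mem_filter.1 (hR hx)).2
    have h4 := card_le_card (nb_mono G (hR.trans (filter_subset _ _)) x)
    omega

/-- The weights of the scales of the hosts. -/
noncomputable def hw [Fintype V] (H : SimpleGraph V) (M d Δ j : ℕ) : ℕ :=
  M / 2 ^ j + 1024 * ((64 * ((Cr H M (2 ^ j * (2 * Δ))).card * d) + ed d) * M) /
    (2 ^ j * (2 * Δ))

theorem hw_sum [Fintype V] {H : SimpleGraph V} {M μ d Δ : ℕ} (J : ℕ) (hΔ : 1 ≤ Δ)
    (hμ : ∑ v : V, (univ.filter (fun u => H.Adj v u)).card ≤ μ) (hdμ1 : 1 ≤ d * μ)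
    (hdμ : 67108864 * (d * μ) ≤ M) (he : 65536 * ed d ≤ Δ) :
    ∑ j ∈ range J, hw H M d Δ j ≤ 3 * M := by
  have h1 := q_sum (H := H) (M := M) (2 * Δ) J 1024 d (ed d) (by omega) hμ
  have h2 : 2 * 1024 * (ed d * M) / (2 * Δ) ≤ M / 64 := by
    rw [Nat.le_div_iff_mul_le (by norm_num)]
    calc 2 * 1024 * (ed d * M) / (2 * Δ) * 64 ≤ (2 * 1024 * (ed d * M) * 64) / (2 * Δ) :=
          div_mul_le _ _ _
      _ ≤ M := by
          apply Nat.div_le_of_le_mul
          calc 2 * 1024 * (ed d * M) * 64 = 2 * (65536 * ed d * M) := by ring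
            _ ≤ 2 * (Δ * M) := Nat.mul_le_mul_left _ (Nat.mul_le_mul_right _ he)
            _ = 2 * Δ * M := by ring
  have h3 := half_sum' M J
  simp only [hw]
  rw [sum_add_distrib]
  omega

/-- Consequences of the choice of the weights. -/
theorem hw_spec [Fintype V] {H : SimpleGraph V} {M d Δ j : ℕ} (hΔ : 4 ≤ Δ)
    (hj : 2 ^ j * Δ ≤ M) :
    256 * qf H M d (2 ^ (j + 1) * Δ) ≤ hw H M d Δ j * (2 ^ j * Δ) / M ∧
      Δ ≤ 4 * (hw H M d Δ j * (2 ^ j * Δ) / M) ∧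
      (hw H M d Δ j * (2 ^ j * Δ) / M) * M ≤ hw H M d Δ j * (2 ^ j * Δ) := by
  have h2j : 0 < 2 ^ j := by positivity
  have ht : 0 < 2 ^ j * Δ := Nat.mul_pos h2j (by omega)
  have hM : 0 < M := by omega
  have hjM : 2 ^ j ≤ M := (Nat.le_mul_of_pos_right _ (by omega)).trans hj
  have h1 : 1 ≤ M / 2 ^ j := by
    rw [Nat.le_div_iff_mul_le h2j]
    omega
  have hx : 2 ^ (j + 1) * Δ = 2 ^ j * (2 * Δ) := by
    rw [pow_succ]
    ring
  have hw1 : M / 2 ^ j ≤ hw H M d Δ j := Nat.le_add_right _ _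
  have hw2 : 1024 * (qf H M d (2 ^ (j + 1) * Δ) * M) ≤ hw H M d Δ j * (2 ^ j * (2 * Δ)) := by
    have h3 : 1024 * (qf H M d (2 ^ (j + 1) * Δ) * M) <
        2 ^ j * (2 * Δ) * (1024 * (qf H M d (2 ^ (j + 1) * Δ) * M) / (2 ^ j * (2 * Δ)) + 1) :=
      Nat.lt_mul_div_succ _ (Nat.mul_pos h2j (by omega))
    refine h3.le.trans ?_
    rw [Nat.mul_comm]
    refine Nat.mul_le_mul_right _ ?_
    rw [hw, qf, hx]
    omega
  refine ⟨?_, ?_, Nat.div_mul_le_self _ _⟩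
  · rw [Nat.le_div_iff_mul_le hM]
    have e1 : 1024 * (qf H M d (2 ^ (j + 1) * Δ) * M) =
      4 * (256 * qf H M d (2 ^ (j + 1) * Δ) * M) := by ring
    have e2 : hw H M d Δ j * (2 ^ j * (2 * Δ)) = 2 * (hw H M d Δ j * (2 ^ j * Δ)) := by ring
    omega
  · have h4 : M ≤ 2 * (M / 2 ^ j * 2 ^ j) := by
      have h5 : M < 2 ^ j * (M / 2 ^ j + 1) := Nat.lt_mul_div_succ _ h2j
      have h6 : 2 ^ j * (M / 2 ^ j + 1) ≤ 2 ^ j * (2 * (M / 2 ^ j)) :=
        Nat.mul_le_mul_left _ (by omega)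
      have e : 2 ^ j * (2 * (M / 2 ^ j)) = 2 * (M / 2 ^ j * 2 ^ j) := by ring
      omega
    have h7 : Δ * M ≤ 2 * (hw H M d Δ j * (2 ^ j * Δ)) := by
      calc Δ * M ≤ Δ * (2 * (M / 2 ^ j * 2 ^ j)) := Nat.mul_le_mul_left _ h4
        _ = 2 * (M / 2 ^ j * (2 ^ j * Δ)) := by ring
        _ ≤ _ := Nat.mul_le_mul_left _ (Nat.mul_le_mul_right _ hw1)
    have h8 : Δ / 2 ≤ hw H M d Δ j * (2 ^ j * Δ) / M := by
      rw [Nat.le_div_iff_mul_le hM]
      have h9 : 2 * (Δ / 2 * M) ≤ Δ * M := by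
        calc 2 * (Δ / 2 * M) = 2 * (Δ / 2) * M := by ring
          _ ≤ Δ * M := Nat.mul_le_mul_right _ (by omega)
      omega
    omega

end

end Pool.Agent.RamseyH5
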