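import Pool.Agent.RamseyH5C.Process

set_option autoImplicit false

/-!
# Selection of hosts of one scale
-/

namespace Pool.Agent.RamseyH5

open Finset

section

open scoped Classical

variable {V W : Type}

/-- The weighted pigeonhole principle for the scale of the hosts. -/
theorem scale_pick (G : SimpleGraph W) (U R : Finset W) (M Δ J : ℕ) (w : ℕ → ℕ)
    (hRM : M ≤ 4 * R.card) (hJ : R.card ≤ 2 ^ J * Δ)
    (hU : 64 * M + ∑ i ∈ range J, w i ≤ U.card)
    (nohost : ∀ R' ⊆ R, M ≤ 8 * R'.card → ∀ Q : Finset W,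
      (∀ x ∈ Q, (nb G R' x).card ≤ Δ) → Q.card < 64 * M) :
    ∃ j < J, ∃ R' ⊆ R, M ≤ 4 * R'.card ∧ ∃ O ⊆ U,
      (∀ v ∈ O, (nb G R' v).card ≤ 2 ^ (j + 1) * Δ) ∧
      ∀ R'' ⊆ R, M ≤ 4 * R''.card →
        w j < (O.filter (fun v => 2 ^ j * Δ ≤ (nb G R'' v).card)).card := by
  by_contra hcon
  push Not at hcon
  have key : ∀ j ≤ J, ∀ R' ⊆ R, M ≤ 4 * R'.card →
      (U.filter (fun v => (nb G R' v).card ≤ 2 ^ j * Δ)).card < 64 * M + ∑ i ∈ range j, w i := by
    intro j
    induction j with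
    | zero =>
      intro _ R' hR' hR'c
      rw [range_zero, sum_empty, Nat.add_zero]
      refine nohost R' hR' (by omega) _ (fun x hx => ?_)
      have := (mem_filter.1 hx).2
      rw [pow_zero, Nat.one_mul] at this
      exact this
    | succ j ih =>
      intro hj R' hR' hR'c
      by_contra hbig
      push Not at hbig
      obtain ⟨R'', hR'', hR''c, hw⟩ := hcon j (by omega) R' hR' hR'c
        (U.filter (fun v => (nb G R' v).card ≤ 2 ^ (j + 1) * Δ)) (filter_subset _ _)
        (fun v hv => (mem_filter.1 hv).2)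
      have h1 := ih (by omega) R'' hR'' hR''c
      have h2 : (U.filter (fun v => (nb G R' v).card ≤ 2 ^ (j + 1) * Δ)).card ≤
          ((U.filter (fun v => (nb G R' v).card ≤ 2 ^ (j + 1) * Δ)).filter
            (fun v => 2 ^ j * Δ ≤ (nb G R'' v).card)).card +
          (U.filter (fun v => (nb G R'' v).card ≤ 2 ^ j * Δ)).card := by
        refine (card_le_card ?_).trans (card_union_le _ _)
        intro v hv
        rcases Nat.le_total (2 ^ j * Δ) (nb G R'' v).card with h | h
        · exact mem_union_left _ (mem_filter.2 ⟨hv, h⟩)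
        · exact mem_union_right _ (mem_filter.2 ⟨(mem_filter.1 hv).1, h⟩)
      rw [sum_range_succ] at hbig
      omega
  have h1 := key J le_rfl R subset_rfl hRM
  have h2 : U.filter (fun v => (nb G R v).card ≤ 2 ^ J * Δ) = U :=
    filter_true_of_mem fun v _ => (card_le_card (nb_subset G R v)).trans hJ
  rw [h2] at h1
  omega

/-- Greedy assignment of vertices to hosts. -/
theorem assign (G : SimpleGraph W) (O Rm : Finset W) (M t k w : ℕ) (ht : 1 ≤ t)
    (hk : k * M ≤ w * t) (hRm : Rm.card ≤ M)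
    (hw : ∀ R'' ⊆ Rm, M ≤ 4 * R''.card →
      w < (O.filter (fun v => t ≤ (nb G R'' v).card)).card) :
    ∃ (Oa : Finset W) (T : W → Finset W), Oa ⊆ O ∧ (∀ v ∈ Oa, T v ⊆ nb G Rm v ∧ (T v).card = t) ∧
      (∀ x ∈ Rm, (Oa.filter (fun v => x ∈ T v)).card ≤ k) ∧
      4 * (Rm.filter (fun x => (Oa.filter (fun v => x ∈ T v)).card < k)).card < M := by
  have key : ∀ (N : ℕ) (Oa : Finset W) (T : W → Finset W), (O \ Oa).card = N → Oa ⊆ O →
      (∀ v ∈ Oa, T v ⊆ nb G Rm v ∧ (T v).card = t) →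
      (∀ x ∈ Rm, (Oa.filter (fun v => x ∈ T v)).card ≤ k) →
      ∃ (Oa : Finset W) (T : W → Finset W), Oa ⊆ O ∧
        (∀ v ∈ Oa, T v ⊆ nb G Rm v ∧ (T v).card = t) ∧
        (∀ x ∈ Rm, (Oa.filter (fun v => x ∈ T v)).card ≤ k) ∧
        4 * (Rm.filter (fun x => (Oa.filter (fun v => x ∈ T v)).card < k)).card < M := by
    intro N
    induction N using Nat.strong_induction_on with
    | _ N ih =>
      intro Oa T hN hOa hT hc
      by_cases hdone : 4 * (Rm.filter (fun x => (Oa.filter (fun v => x ∈ T v)).card < k)).card < M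
      · exact ⟨Oa, T, hOa, hT, hc, hdone⟩
      · push Not at hdone
        set R'' := Rm.filter (fun x => (Oa.filter (fun v => x ∈ T v)).card < k) with hR''
        have h1 := hw R'' (filter_subset _ _) hdone
        have h2 : Oa.card * t ≤ w * t := by
          calc Oa.card * t = ∑ v ∈ Oa, (T v).card := by
                rw [sum_congr rfl (fun v hv => (hT v hv).2), sum_const, smul_eq_mul]
            _ = ∑ v ∈ Oa, (Rm.filter (fun x => x ∈ T v)).card := by
                refine sum_congr rfl fun v hv => ?_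
                congr 1
                ext x
                rw [mem_filter]
                exact ⟨fun h => ⟨nb_subset G Rm v ((hT v hv).1 h), h⟩, fun h => h.2⟩
            _ = ∑ x ∈ Rm, (Oa.filter (fun v => x ∈ T v)).card := by
                simp only [card_filter]
                rw [sum_comm]
            _ ≤ ∑ _x ∈ Rm, k := sum_le_sum hc
            _ = Rm.card * k := by rw [sum_const, smul_eq_mul]
            _ ≤ M * k := Nat.mul_le_mul_right _ hRm
            _ = k * M := by ring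
            _ ≤ w * t := hk
        have h3 : Oa.card ≤ w := Nat.le_of_mul_le_mul_right h2 ht
        obtain ⟨v, hv, hvO⟩ : ∃ v ∈ O.filter (fun v => t ≤ (nb G R'' v).card), v ∉ Oa := by
          by_contra hall
          push Not at hall
          have := card_le_card (s := O.filter (fun v => t ≤ (nb G R'' v).card)) (t := Oa) hall
          omega
        obtain ⟨hvO', hvt⟩ := mem_filter.1 hv
        obtain ⟨Tv, hTv, hTvc⟩ := exists_subset_card_eq hvt
        have hupd : ∀ u ∈ Oa, Function.update T v Tv u = T u := by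
          intro u hu
          refine Function.update_of_ne ?_ _ _
          rintro rfl
          exact hvO hu
        have hfil : ∀ x, (insert v Oa).filter (fun u => x ∈ Function.update T v Tv u) ⊆
            (if x ∈ Tv then {v} else ∅) ∪ Oa.filter (fun u => x ∈ T u) := by
          intro x u hu
          obtain ⟨g1, g2⟩ := mem_filter.1 hu
          rcases mem_insert.1 g1 with rfl | g1
          · rw [Function.update_self] at g2
            rw [if_pos g2]
            exact mem_union_left _ (mem_singleton_self _)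
          · rw [hupd u g1] at g2
            exact mem_union_right _ (mem_filter.2 ⟨g1, g2⟩)
        refine ih ((O \ insert v Oa).card) ?_ (insert v Oa) (Function.update T v Tv) rfl
          (insert_subset hvO' hOa) ?_ ?_
        · rw [← hN]
          refine card_lt_card ?_
          refine ⟨sdiff_subset_sdiff subset_rfl (subset_insert _ _), fun h => ?_⟩
          exact (mem_sdiff.1 (h (mem_sdiff.2 ⟨hvO', hvO⟩))).2 (mem_insert_self _ _)
        · intro u hu
          rcases mem_insert.1 hu with rfl | hu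
          · rw [Function.update_self]
            exact ⟨hTv.trans (nb_mono G (filter_subset _ _) _), hTvc⟩
          · rw [hupd u hu]
            exact hT u hu
        · intro x hx
          by_cases hxT : x ∈ Tv
          · have hxR : x ∈ R'' := (mem_nb.1 (hTv hxT)).1
            have h4 := (mem_filter.1 hxR).2
            have h5 := (card_le_card (hfil x)).trans (card_union_le _ _)
            rw [if_pos hxT, card_singleton] at h5
            omega
          · have h5 := (card_le_card (hfil x)).trans (card_union_le _ _)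
            rw [if_neg hxT, card_empty] at h5
            have := hc x hx
            omega
  refine key (O \ ∅).card ∅ (fun _ => ∅) rfl (empty_subset _)
    (fun v hv => absurd hv (notMem_empty v)) (fun x _ => ?_)
  simp

/-- The graph of the host structure. -/
def HG (Oa Rm : Finset W) (T : W → Finset W) : SimpleGraph W :=
  SimpleGraph.fromRel (fun v x => v ∈ Oa ∧ x ∈ Rm ∧ x ∈ T v)

theorem mem_nb_HG {Oa Rm X : Finset W} {T : W → Finset W} (hdis : ∀ v ∈ Oa, v ∉ Rm)
    (hX : X ⊆ Rm) {v x : W} (hv : v ∈ Oa) : x ∈ nb (HG Oa Rm T) X v ↔ x ∈ X ∧ x ∈ T v := by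
  rw [mem_nb, HG, SimpleGraph.fromRel_adj]
  constructor
  · rintro ⟨h1, -, h2⟩
    rcases h2 with h2 | h2
    · exact ⟨h1, h2.2.2⟩
    · exact absurd (hX h1) (hdis x h2.1)
  · rintro ⟨h1, h2⟩
    refine ⟨h1, ?_, Or.inl ⟨hv, hX h1, h2⟩⟩
    rintro rfl
    exact hdis v hv (hX h1)

theorem mem_nb_HG' {Oa Rm O' : Finset W} {T : W → Finset W} (hdis : ∀ v ∈ Oa, v ∉ Rm)
    (hO' : O' ⊆ Oa) {v x : W} (hx : x ∈ Rm) : v ∈ nb (HG Oa Rm T) O' x ↔ v ∈ O' ∧ x ∈ T v := by
  rw [mem_nb, HG, SimpleGraph.fromRel_adj]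
  constructor
  · rintro ⟨h1, -, h2⟩
    rcases h2 with h2 | h2
    · exact absurd hx (hdis x h2.1)
    · exact ⟨h1, h2.2.2⟩
  · rintro ⟨h1, h2⟩
    refine ⟨h1, ?_, Or.inr ⟨hO' h1, hx, h2⟩⟩
    rintro rfl
    exact hdis x (hO' h1) hx

/-- The host structure. -/
theorem hosts_build {G : SimpleGraph W} (hG : ¬ H5.IsContained G) {M t k w σ Rb : ℕ}
    (O Rm : Finset W) (hdis : ∀ v ∈ O, v ∉ Rm) (hM : 1 ≤ M) (hk1 : 1 ≤ k)
    (ht : 2048 * σ ≤ t) (hσ : 1 ≤ σ) (hk : k * M ≤ w * t)
    (hRm : Rm.card ≤ M) (hRm2 : 3 * M ≤ 4 * Rm.card)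
    (hw : ∀ R'' ⊆ Rm, M ≤ 4 * R''.card →
      w < (O.filter (fun v => t ≤ (nb G R'' v).card)).card)
    (hPd : ∀ x ∈ Rm, k ≤ (nb G O x).card → (Pd G Rm x).card ≤ Rb)
    (hC1 : 549755813888 * (σ ^ 2 * Rb) ≤ k * t ^ 2) :
    ∃ (G' : SimpleGraph W) (Ob Y : Finset W), (∀ v x, G'.Adj v x → G.Adj v x) ∧ Y ⊆ Rm ∧
      32 * Rm.card ≤ 32 * Y.card + 9 * M ∧ 1 ≤ Ob.card ∧ k * M ≤ 8 * (t * Ob.card) ∧
      (∀ x ∈ Y, t * Ob.card ≤ 2 * M * (nb G' Ob x).card) ∧
      (∀ v ∈ Ob, ∀ X ⊆ Y, t ≤ 256 * (nb G' X v).card →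
        (nb G' X v).card < 2 * (Lo G σ (nb G' X v)).card) := by
  have ht1 : 1 ≤ t := by omega
  obtain ⟨Oa, T, hOa, hT, hc, hcl⟩ := assign G O Rm M t k w ht1 hk hRm hw
  have hdis' : ∀ v ∈ Oa, v ∉ Rm := fun v hv => hdis v (hOa hv)
  set G' := HG Oa Rm T with hG'
  have hGG : ∀ v x, G'.Adj v x → G.Adj v x := by
    intro v x h
    rw [hG', HG, SimpleGraph.fromRel_adj] at h
    obtain ⟨-, h | h⟩ := h
    · exact (mem_nb.1 ((hT v h.1).1 h.2.2)).2
    · exact (mem_nb.1 ((hT x h.1).1 h.2.2)).2.symm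
  set Y₀ := Rm.filter (fun x => k ≤ (Oa.filter (fun v => x ∈ T v)).card) with hY₀
  have hY₀R : Y₀ ⊆ Rm := filter_subset _ _
  have hY₀c : Rm.card ≤ Y₀.card +
      (Rm.filter (fun x => (Oa.filter (fun v => x ∈ T v)).card < k)).card := by
    refine (card_le_card ?_).trans (card_union_le _ _)
    intro x hx
    rcases Nat.lt_or_ge (Oa.filter (fun v => x ∈ T v)).card k with h | h
    · exact mem_union_right _ (mem_filter.2 ⟨hx, h⟩)
    · exact mem_union_left _ (mem_filter.2 ⟨hx, h⟩)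
  have hPdY : ∀ x ∈ Y₀, (Pd G Y₀ x).card ≤ Rb := by
    intro x hx
    obtain ⟨hxR, hxk⟩ := mem_filter.1 hx
    refine (card_le_card (Pd_mono G hY₀R x)).trans (hPd x hxR (hxk.trans (card_le_card ?_)))
    intro v hv
    obtain ⟨h1, h2⟩ := mem_filter.1 hv
    exact mem_nb.2 ⟨hOa h1, (mem_nb.1 ((hT v h1).1 h2)).2.symm⟩
  have hTsum : Oa.card * t ≤ k * M := by
    calc Oa.card * t = ∑ v ∈ Oa, (T v).card := by
          rw [sum_congr rfl (fun v hv => (hT v hv).2), sum_const, smul_eq_mul]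
      _ = ∑ v ∈ Oa, (Rm.filter (fun x => x ∈ T v)).card := by
          refine sum_congr rfl fun v hv => ?_
          congr 1
          ext x
          rw [mem_filter]
          exact ⟨fun h => ⟨nb_subset G Rm v ((hT v hv).1 h), h⟩, fun h => h.2⟩
      _ = ∑ x ∈ Rm, (Oa.filter (fun v => x ∈ T v)).card := by
          simp only [card_filter]
          rw [sum_comm]
      _ ≤ ∑ _x ∈ Rm, k := sum_le_sum hc
      _ = Rm.card * k := by rw [sum_const, smul_eq_mul]
      _ ≤ M * k := Nat.mul_le_mul_right _ hRm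
      _ = k * M := by ring
  -- the bad hosts
  let Pn : W → ℕ := fun v => ∑ u ∈ nb G' Y₀ v,
    ((Y₀.filter (fun x => G.Adj x v ∧ G.Adj x u)).offDiag).card
  set Bad := Oa.filter (fun v => t ^ 3 ≤ 4294967296 * σ ^ 2 * Pn v) with hBad
  have hBadO : Bad ⊆ Oa := filter_subset _ _
  have hBad3 : Bad.card * t ^ 3 ≤ 8589934592 * (σ ^ 2 * (M * Rb)) := by
    have h1 := count_le hG Bad Y₀ (fun v => nb G' Y₀ v)
      (fun v _ u hu => hGG _ _ (mem_nb.1 hu).2)
    have h2 : ∑ x ∈ Y₀, (Pd G Y₀ x).card ≤ M * Rb := by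
      calc ∑ x ∈ Y₀, (Pd G Y₀ x).card ≤ ∑ _x ∈ Y₀, Rb := sum_le_sum hPdY
        _ = Y₀.card * Rb := by rw [sum_const, smul_eq_mul]
        _ ≤ M * Rb := Nat.mul_le_mul_right _ ((card_le_card hY₀R).trans hRm)
    calc Bad.card * t ^ 3 = ∑ _v ∈ Bad, t ^ 3 := by rw [sum_const, smul_eq_mul]
      _ ≤ ∑ v ∈ Bad, 4294967296 * σ ^ 2 * Pn v := sum_le_sum fun v hv => (mem_filter.1 hv).2
      _ = 4294967296 * σ ^ 2 * ∑ v ∈ Bad, Pn v := by rw [← mul_sum]
      _ ≤ 4294967296 * σ ^ 2 * (2 * (M * Rb)) :=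
          Nat.mul_le_mul_left _ (h1.trans (Nat.mul_le_mul_left _ h2))
      _ = _ := by ring
  have hBadt : 64 * (Bad.card * t) ≤ k * M := by
    have h1 : t ^ 2 * (64 * (Bad.card * t)) ≤ t ^ 2 * (k * M) := by
      calc t ^ 2 * (64 * (Bad.card * t)) = 64 * (Bad.card * t ^ 3) := by ring
        _ ≤ 64 * (8589934592 * (σ ^ 2 * (M * Rb))) := Nat.mul_le_mul_left _ hBad3
        _ = M * (549755813888 * (σ ^ 2 * Rb)) := by ring
        _ ≤ M * (k * t ^ 2) := Nat.mul_le_mul_left _ hC1
        _ = _ := by ring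
    exact Nat.le_of_mul_le_mul_left h1 (Nat.pow_pos ht1)
  set Y := Y₀.filter (fun x => 2 * (Bad.filter (fun v => x ∈ T v)).card ≤ k) with hY
  have hYY₀ : Y ⊆ Y₀ := filter_subset _ _
  have hYR : Y ⊆ Rm := hYY₀.trans hY₀R
  have hYc : 32 * (Y₀ \ Y).card ≤ M := by
    have h1 : k * (32 * (Y₀ \ Y).card) ≤ k * M := by
      calc k * (32 * (Y₀ \ Y).card) = 32 * ∑ _x ∈ Y₀ \ Y, k := by
            rw [sum_const, smul_eq_mul]
            ring
        _ ≤ 32 * ∑ x ∈ Y₀ \ Y, 2 * (Bad.filter (fun v => x ∈ T v)).card := by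
            refine Nat.mul_le_mul_left _ (sum_le_sum fun x hx => ?_)
            obtain ⟨h1, h2⟩ := mem_sdiff.1 hx
            by_contra h3
            exact h2 (mem_filter.2 ⟨h1, by omega⟩)
        _ ≤ 32 * ∑ x ∈ Rm, 2 * (Bad.filter (fun v => x ∈ T v)).card :=
            Nat.mul_le_mul_left _ (sum_le_sum_of_subset (sdiff_subset.trans hY₀R))
        _ = 64 * ∑ x ∈ Rm, (Bad.filter (fun v => x ∈ T v)).card := by
            rw [← mul_sum]
            ring
        _ = 64 * ∑ v ∈ Bad, (Rm.filter (fun x => x ∈ T v)).card := by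
            congr 1
            simp only [card_filter]
            rw [sum_comm]
        _ ≤ 64 * ∑ _v ∈ Bad, t := by
            refine Nat.mul_le_mul_left _ (sum_le_sum fun v hv => ?_)
            rw [← (hT v (hBadO hv)).2]
            exact card_le_card fun x hx => (mem_filter.1 hx).2
        _ = 64 * (Bad.card * t) := by rw [sum_const, smul_eq_mul]
        _ ≤ k * M := hBadt
    exact Nat.le_of_mul_le_mul_left h1 hk1
  have hYcard : 32 * Rm.card ≤ 32 * Y.card + 9 * M := by
    have := le_card_sdiff Y Y₀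
    omega
  set Ob := Oa \ Bad with hOb
  have hObO : Ob ⊆ Oa := sdiff_subset
  have hYk : ∀ x ∈ Y, k ≤ 2 * (nb G' Ob x).card := by
    intro x hx
    obtain ⟨hx₀, hxb⟩ := mem_filter.1 hx
    obtain ⟨hxR, hxk⟩ := mem_filter.1 hx₀
    have h1 : (Oa.filter (fun v => x ∈ T v)).card ≤ (nb G' Ob x).card +
        (Bad.filter (fun v => x ∈ T v)).card := by
      refine (card_le_card ?_).trans (card_union_le _ _)
      intro v hv
      obtain ⟨h1, h2⟩ := mem_filter.1 hv
      by_cases h3 : v ∈ Bad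
      · exact mem_union_right _ (mem_filter.2 ⟨h3, h2⟩)
      · exact mem_union_left _ ((mem_nb_HG' hdis' hObO hxR).2 ⟨mem_sdiff.2 ⟨h1, h3⟩, h2⟩)
    omega
  have hkM : k * M ≤ 8 * (t * Ob.card) := by
    have h1 : Y.card * k ≤ 2 * (t * Ob.card) := by
      calc Y.card * k = ∑ _x ∈ Y, k := by rw [sum_const, smul_eq_mul]
        _ ≤ ∑ x ∈ Y, 2 * (nb G' Ob x).card := sum_le_sum hYk
        _ = 2 * ∑ v ∈ Ob, (nb G' Y v).card := by rw [← mul_sum, nb_comm]
        _ ≤ 2 * ∑ _v ∈ Ob, t := by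
            refine Nat.mul_le_mul_left _ (sum_le_sum fun v hv => ?_)
            rw [← (hT v (hObO hv)).2]
            exact card_le_card fun x hx => ((mem_nb_HG hdis' hYR (hObO hv)).1 hx).2
        _ = 2 * (t * Ob.card) := by
            rw [sum_const, smul_eq_mul]
            ring
    have h2 : M ≤ 4 * Y.card := by omega
    calc k * M ≤ k * (4 * Y.card) := Nat.mul_le_mul_left _ h2
      _ = 4 * (Y.card * k) := by ring
      _ ≤ 4 * (2 * (t * Ob.card)) := Nat.mul_le_mul_left _ h1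
      _ = _ := by ring
  refine ⟨G', Ob, Y, hGG, hYR, hYcard, ?_, hkM, ?_, ?_⟩
  · by_contra hcon
    have h1 : Ob.card = 0 := by omega
    rw [h1] at hkM
    have : 0 < k * M := Nat.mul_pos hk1 hM
    omega
  · intro x hx
    have h1 := hYk x hx
    calc t * Ob.card ≤ t * Oa.card := Nat.mul_le_mul_left _ (card_le_card hObO)
      _ = Oa.card * t := by ring
      _ ≤ k * M := hTsum
      _ ≤ 2 * (nb G' Ob x).card * M := Nat.mul_le_mul_right _ h1
      _ = _ := by ring
  · intro v hv X hX htX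
    obtain ⟨hvO, hvB⟩ := mem_sdiff.1 hv
    by_contra hcon
    push Not at hcon
    have hXY₀ : X ⊆ Y₀ := hX.trans hYY₀
    have h1 := lower G Y₀ (nb G' X v) v (8 * σ) ((nb_subset G' X v).trans hXY₀)
      (fun u hu => hGG _ _ (mem_nb.1 hu).2) hcon (by omega)
    have h2 : ∑ u ∈ nb G' X v, ((Y₀.filter (fun x => G.Adj x v ∧ G.Adj x u)).offDiag).card ≤
        Pn v := sum_le_sum_of_subset (nb_mono G' hXY₀ v)
    refine hvB (mem_filter.2 ⟨hvO, ?_⟩)
    calc t ^ 3 ≤ (256 * (nb G' X v).card) ^ 3 := Nat.pow_le_pow_left htX 3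
      _ = 16777216 * (nb G' X v).card ^ 3 := by ring
      _ ≤ 16777216 * (4 * (8 * σ) ^ 2 * Pn v) :=
          Nat.mul_le_mul_left _ (h1.trans (Nat.mul_le_mul_left _ h2))
      _ = _ := by ring

end

end Pool.Agent.RamseyH5
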