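import Pool.Agent.RamseyH5G.Chrom

set_option autoImplicit false

/-!
# Cores with a fixed threshold, and the sum of their sizes over all scales
-/

namespace Pool.Agent.RamseyH5

open Finset

section

open scoped Classical

variable {V W : Type}

/-- The vertices of degree larger than `M / (16 x)`. -/
noncomputable def Cr [Fintype V] (H : SimpleGraph V) (M x : ℕ) : Finset V :=
  univ.filter (fun v => M < 16 * x * (univ.filter (fun u => H.Adj v u)).card)

theorem Cr_mono [Fintype V] (H : SimpleGraph V) (M : ℕ) {x y : ℕ} (h : x ≤ y) :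
    Cr H M x ⊆ Cr H M y := by
  intro v hv
  have h1 := (mem_filter.1 hv).2
  exact mem_filter.2 ⟨mem_univ v, lt_of_lt_of_le h1
    (Nat.mul_le_mul_right _ (Nat.mul_le_mul_left _ h))⟩

theorem Cr_card [Fintype V] {H : SimpleGraph V} {M μ : ℕ} (x : ℕ)
    (hμ : ∑ v : V, (univ.filter (fun u => H.Adj v u)).card ≤ μ) :
    (Cr H M x).card * M ≤ 16 * μ * x := by
  calc (Cr H M x).card * M = ∑ _v ∈ Cr H M x, M := by rw [sum_const, smul_eq_mul]
    _ ≤ ∑ v ∈ Cr H M x, 16 * x * (univ.filter (fun u => H.Adj v u)).card :=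
        sum_le_sum fun v hv => (mem_filter.1 hv).2.le
    _ ≤ ∑ v : V, 16 * x * (univ.filter (fun u => H.Adj v u)).card :=
        sum_le_sum_of_subset (subset_univ _)
    _ = 16 * x * ∑ v : V, (univ.filter (fun u => H.Adj v u)).card := by rw [mul_sum]
    _ ≤ 16 * x * μ := Nat.mul_le_mul_left _ hμ
    _ = _ := by ring

theorem Cr_core [Fintype V] {H : SimpleGraph V} {G : SimpleGraph W}
    (hno : ∀ Z : Finset W, ¬ Emb H G univ Z) {M : ℕ}
    (hVM : 16 * Fintype.card V ≤ M)
    (R : Finset W) (Dm : ℕ) (hDm : 1 ≤ Dm) (hR : M ≤ 8 * R.card)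
    (hdeg : ∀ x ∈ R, (nb G R x).card ≤ Dm) :
    ∀ P' : Finset V, Cr H M Dm ⊆ P' → ∀ Hst : Finset W,
      (∀ x ∈ Hst, (nb G R x).card ≤ Dm) → ¬ Emb H G P' Hst := by
  intro P' hPP' Hst hHst hemb
  have h16 : 16 * Dm * (M / (16 * Dm)) ≤ M := Nat.mul_div_le _ _
  refine hno _ (rest_embed H G P' Hst R Dm (M / (16 * Dm)) hemb hHst hdeg ?_ ?_)
  · intro v hv
    by_contra hcon
    push Not at hcon
    refine hv (hPP' (mem_filter.2 ⟨mem_univ _, ?_⟩))
    rw [Nat.div_lt_iff_lt_mul (by omega)] at hcon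
    rw [Nat.mul_comm (16 * Dm)]
    exact hcon
  · have : 16 * Dm * (M / (16 * Dm)) = 16 * (M / (16 * Dm) * Dm) := by ring
    omega

/-- The contribution of one vertex of degree `g`. -/
theorem key_one (M y g : ℕ) : ∀ J : ℕ,
    ∑ i ∈ range J, (if M < 16 * (2 ^ i * y) * g then 2 ^ (J - i) * M else 0) ≤
      2 * (16 * (2 ^ J * y) * g - M) := by
  intro J
  induction J with
  | zero => simp
  | succ J ih =>
    rw [sum_range_succ]
    have h1 : ∑ i ∈ range J, (if M < 16 * (2 ^ i * y) * g then 2 ^ (J + 1 - i) * M else 0) =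
        2 * ∑ i ∈ range J, (if M < 16 * (2 ^ i * y) * g then 2 ^ (J - i) * M else 0) := by
      rw [mul_sum]
      refine sum_congr rfl fun i hi => ?_
      have hi' := mem_range.1 hi
      have e : J + 1 - i = (J - i) + 1 := by omega
      split_ifs
      · rw [e, pow_succ]
        ring
      · rfl
    rw [h1]
    have e2 : J + 1 - J = 1 := by omega
    have e3 : 16 * (2 ^ (J + 1) * y) * g = 2 * (16 * (2 ^ J * y) * g) := by
      rw [pow_succ]
      ring
    rw [e2, e3, pow_one]
    set z := 16 * (2 ^ J * y) * g with hz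
    split_ifs with hcase
    · omega
    · omega

/-- The sum over all scales of the sizes of the cores. -/
theorem Cr_sum [Fintype V] {H : SimpleGraph V} {M μ : ℕ} (y J : ℕ)
    (hμ : ∑ v : V, (univ.filter (fun u => H.Adj v u)).card ≤ μ) :
    ∑ i ∈ range J, 2 ^ (J - i) * ((Cr H M (2 ^ i * y)).card * M) ≤ 32 * (2 ^ J * y) * μ := by
  calc ∑ i ∈ range J, 2 ^ (J - i) * ((Cr H M (2 ^ i * y)).card * M)
      = ∑ i ∈ range J, ∑ v : V, (if M < 16 * (2 ^ i * y) *
          (univ.filter (fun u => H.Adj v u)).card then 2 ^ (J - i) * M else 0) := by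
        refine sum_congr rfl fun i _ => ?_
        rw [← sum_filter, sum_const, smul_eq_mul]
        rw [Cr]
        ring
    _ = ∑ v : V, ∑ i ∈ range J, (if M < 16 * (2 ^ i * y) *
          (univ.filter (fun u => H.Adj v u)).card then 2 ^ (J - i) * M else 0) := sum_comm
    _ ≤ ∑ v : V, 32 * (2 ^ J * y) * (univ.filter (fun u => H.Adj v u)).card := by
        refine sum_le_sum fun v _ => (key_one M y _ J).trans ?_
        have : 32 * (2 ^ J * y) * (univ.filter (fun u => H.Adj v u)).card =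
          2 * (16 * (2 ^ J * y) * (univ.filter (fun u => H.Adj v u)).card) := by ring
        omega
    _ = 32 * (2 ^ J * y) * ∑ v : V, (univ.filter (fun u => H.Adj v u)).card := by
        rw [mul_sum]
    _ ≤ _ := Nat.mul_le_mul_left _ hμ

/-- Geometric sum. -/
theorem geom_sum (J : ℕ) : ∑ i ∈ range J, 2 ^ (J - i) ≤ 2 * 2 ^ J := by
  have : ∀ J : ℕ, ∑ i ∈ range J, 2 ^ (J - i) + 2 = 2 * 2 ^ J := by
    intro J
    induction J with
    | zero => simp
    | succ J ih =>
      rw [sum_range_succ]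
      have h1 : ∑ i ∈ range J, 2 ^ (J + 1 - i) = 2 * ∑ i ∈ range J, 2 ^ (J - i) := by
        rw [mul_sum]
        refine sum_congr rfl fun i hi => ?_
        have hi' := mem_range.1 hi
        have e : J + 1 - i = (J - i) + 1 := by omega
        rw [e, pow_succ]
        ring
      have e2 : J + 1 - J = 1 := by omega
      rw [h1, e2, pow_succ]
      omega
  have := this J
  omega

/-- The sum over all scales of the numbers `K (64 n d + e) M / x`. -/
theorem q_sum [Fintype V] {H : SimpleGraph V} {M μ : ℕ} (y J K d e : ℕ) (hy : 1 ≤ y)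
    (hμ : ∑ v : V, (univ.filter (fun u => H.Adj v u)).card ≤ μ) :
    ∑ i ∈ range J, K * ((64 * ((Cr H M (2 ^ i * y)).card * d) + e) * M) / (2 ^ i * y) ≤
      2048 * K * (d * μ) + 2 * K * (e * M) / y + 1 := by
  have hpos : 0 < 2 ^ J * y := Nat.mul_pos (by positivity) hy
  have h1 : (2 ^ J * y) * ∑ i ∈ range J,
      K * ((64 * ((Cr H M (2 ^ i * y)).card * d) + e) * M) / (2 ^ i * y) ≤
      (2 ^ J * y) * (2048 * K * (d * μ)) + 2 ^ J * (2 * K * (e * M)) := by
    calc (2 ^ J * y) * ∑ i ∈ range J,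
          K * ((64 * ((Cr H M (2 ^ i * y)).card * d) + e) * M) / (2 ^ i * y)
        ≤ ∑ i ∈ range J, 2 ^ (J - i) *
          (K * ((64 * ((Cr H M (2 ^ i * y)).card * d) + e) * M)) := by
          rw [mul_sum]
          refine sum_le_sum fun i hi => ?_
          have hi' := mem_range.1 hi
          have e1 : 2 ^ J = 2 ^ (J - i) * 2 ^ i := by
            rw [← pow_add]
            congr 1
            omega
          calc 2 ^ J * y * (K * ((64 * ((Cr H M (2 ^ i * y)).card * d) + e) * M) / (2 ^ i * y))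
              = 2 ^ (J - i) * ((2 ^ i * y) *
                (K * ((64 * ((Cr H M (2 ^ i * y)).card * d) + e) * M) / (2 ^ i * y))) := by
                rw [e1]
                ring
            _ ≤ _ := Nat.mul_le_mul_left _ (Nat.mul_div_le _ _)
      _ = 64 * K * d * ∑ i ∈ range J, 2 ^ (J - i) * ((Cr H M (2 ^ i * y)).card * M) +
          K * e * M * ∑ i ∈ range J, 2 ^ (J - i) := by
          rw [mul_sum, mul_sum, ← sum_add_distrib]
          exact sum_congr rfl fun i _ => by ring
      _ ≤ 64 * K * d * (32 * (2 ^ J * y) * μ) + K * e * M * (2 * 2 ^ J) :=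
          Nat.add_le_add (Nat.mul_le_mul_left _ (Cr_sum y J hμ))
            (Nat.mul_le_mul_left _ (geom_sum J))
      _ = _ := by ring
  have h2 : 2 * K * (e * M) < y * (2 * K * (e * M) / y + 1) := Nat.lt_mul_div_succ _ hy
  have h3 : (2 ^ J * y) * ∑ i ∈ range J,
      K * ((64 * ((Cr H M (2 ^ i * y)).card * d) + e) * M) / (2 ^ i * y) ≤
      (2 ^ J * y) * (2048 * K * (d * μ) + 2 * K * (e * M) / y + 1) := by
    refine h1.trans ?_
    calc (2 ^ J * y) * (2048 * K * (d * μ)) + 2 ^ J * (2 * K * (e * M))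
        ≤ (2 ^ J * y) * (2048 * K * (d * μ)) + 2 ^ J * (y * (2 * K * (e * M) / y + 1)) :=
          Nat.add_le_add_left (Nat.mul_le_mul_left _ h2.le) _
      _ = _ := by ring
  exact Nat.le_of_mul_le_mul_left h3 hpos

end

end Pool.Agent.RamseyH5
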