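import Pool.Agent.RamseyH5C.Sparse

set_option autoImplicit false

/-!
# Partitions into degenerate parts: the refined induction
-/

namespace Pool.Agent.RamseyH5

open Finset

section

open scoped Classical

/-- `H` has a partition into `k` parts, the part number `0` inducing a `D`-degenerate graph and
the other parts `d`-degenerate graphs. -/
def PartsD {V : Type} (H : SimpleGraph V) (k d D : ℕ) : Prop :=
  ∃ c : V → Fin k, ∀ (i : Fin k) (T : Finset V), (∀ v ∈ T, c v = i) → T.Nonempty →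
    ∃ v ∈ T, (T.filter (fun u => H.Adj v u)).card ≤ if i.1 = 0 then D else d

/-- The statement proved by induction on the number of parts `k`. -/
def SKs (d k f C : ℕ) : Prop :=
  ∀ (V W : Type) [Fintype V] (H : SimpleGraph V) (G : SimpleGraph W), ¬ H5.IsContained G →
    ∀ μ σ D : ℕ, PartsD H k d D → 1 ≤ D → D ≤ σ → σ ^ 2 * D ^ 3 ≤ μ ^ 2 → 1 ≤ μ →
    Fintype.card V ≤ μ →
    ∑ v : V, (univ.filter (fun u => H.Adj v u)).card ≤ μ → Dg H univ σ → σ ^ 2 ≤ 4 * μ →
    ∀ U : Finset W, C * (μ ^ (2 * f + 2) + μ ^ 2 * σ ^ (5 * f)) ≤ U.card ^ (2 * f + 2) →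
    Emb H G univ U

variable {V W : Type}

theorem SKs_base (d : ℕ) (hd : 1 ≤ d) :
    SKs d 2 0 ((1152921504606846976 * d ^ 5) ^ 2) := by
  intro V W _ H G hG μ σ D hcol hD hDσ hDμ hμ1 hVμ hμ hσ hσμ U hU
  have hσ1 : 1 ≤ σ := hD.trans hDσ
  have hd5 : 1 ≤ d ^ 5 := Nat.pow_pos hd
  have hdd : d ≤ d ^ 5 := Nat.le_self_pow (by norm_num) d
  have hU1 : 1152921504606846976 * d ^ 5 * μ ≤ U.card := by
    by_contra hcon
    push Not at hcon
    have h1 := Nat.pow_lt_pow_left hcon (n := 2) (by norm_num)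
    simp only [Nat.mul_zero, Nat.zero_add, pow_zero, Nat.mul_one] at hU
    have h2 : (1152921504606846976 * d ^ 5 * μ) ^ 2 ≤
        (1152921504606846976 * d ^ 5) ^ 2 * (μ ^ 2 + μ ^ 2) := by
      rw [mul_pow (1152921504606846976 * d ^ 5) μ]
      exact Nat.mul_le_mul_left _ (Nat.le_add_right _ _)
    omega
  have hU2 : 1152921504606846976 * (d ^ 5 * μ) ≤ U.card := by
    have : 1152921504606846976 * d ^ 5 * μ = 1152921504606846976 * (d ^ 5 * μ) := by ring
    omega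
  have h5μ : d ^ 5 ≤ d ^ 5 * μ := Nat.le_mul_of_pos_right _ hμ1
  have hμ5 : μ ≤ d ^ 5 * μ := Nat.le_mul_of_pos_left _ hd5
  have hdμ : d * μ ≤ d ^ 5 * μ := Nat.mul_le_mul_right _ hdd
  obtain ⟨c, hc⟩ := hcol
  have hne : Nonempty {x // x ∈ U} := by
    obtain ⟨x, hx⟩ := card_pos.1 (by omega : 0 < U.card)
    exact ⟨⟨x, hx⟩⟩
  have hσ4 : σ ≤ 4 * μ := by
    have : σ ≤ σ ^ 2 := Nat.le_self_pow (by norm_num) σ
    omega
  have hed1 : ed d ≤ 131072 * d ^ 5 :=
    (Nat.le_self_pow (by norm_num) _).trans (ed_upper hd)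
  have hσe : σ * ed d ≤ 524288 * (d ^ 5 * μ) := by
    calc σ * ed d ≤ 4 * μ * (131072 * d ^ 5) := Nat.mul_le_mul hσ4 hed1
      _ = _ := by ring
  have hdat : SDat H (univ.filter (fun v => c v = 1)) (univ.filter (fun v => c v = 0)) d D σ
      (U.card / 256) μ := by
    refine ⟨hd, hD, hDσ, ?_, ?_, hσ, hσμ, ?_, hμ1, hVμ, hμ, by omega, by omega, ?_⟩
    · intro T hT hTne
      exact hc 1 T (fun v hv => (mem_filter.1 (hT hv)).2) hTne
    · intro T hT hTne
      exact hc 0 T (fun v hv => (mem_filter.1 (hT hv)).2) hTne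
    · intro v
      have h2 : c v = 0 ∨ c v = 1 := by
        generalize c v = i
        fin_cases i
        · exact Or.inl rfl
        · exact Or.inr rfl
      simp only [mem_union, mem_filter, mem_univ, true_and]
      tauto
    · calc 17592186044416 * (σ ^ 2 * D ^ 3) ≤ 17592186044416 * μ ^ 2 :=
            Nat.mul_le_mul_left _ hDμ
        _ ≤ (4194304 * μ) ^ 2 := by
            rw [mul_pow]
            norm_num
        _ ≤ _ := Nat.pow_le_pow_left (by omega) 2
  obtain ⟨Z, hZ⟩ := csparse (sub_free hG U) hdat univ (by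
    rw [card_univ, Fintype.card_coe]
    omega)
  exact emb_of_sub hZ

theorem Dg_sub {H : SimpleGraph V} {σ : ℕ} [Fintype V] (h : Dg H univ σ) (P : Finset V) :
    Dg (Sub H P) univ σ := by
  intro T _ hne
  obtain ⟨v, hv, hc⟩ := h (T.map (Function.Embedding.subtype _)) (subset_univ _) hne.map
  obtain ⟨u, hu, rfl⟩ := mem_map.1 hv
  exact ⟨u, hu, (sub_filter_card H P T u).trans hc⟩

/-- The elementary inequality between the two terms. -/
theorem mix_le (f μ σ : ℕ) : σ ^ (10 * f + 10) * μ ^ (2 * f + 2) ≤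
    μ ^ (6 * f + 6) + μ ^ 2 * σ ^ (15 * f + 10) := by
  rcases Nat.le_total (σ ^ 5) (μ ^ 2) with h | h
  · refine le_trans ?_ (Nat.le_add_right _ _)
    calc σ ^ (10 * f + 10) * μ ^ (2 * f + 2) = (σ ^ 5) ^ (2 * f + 2) * μ ^ (2 * f + 2) := by
          rw [← pow_mul]
          congr 2
          ring
      _ ≤ (μ ^ 2) ^ (2 * f + 2) * μ ^ (2 * f + 2) :=
          Nat.mul_le_mul_right _ (Nat.pow_le_pow_left h _)
      _ = _ := by
          rw [← pow_mul, ← pow_add]
          congr 1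
          ring
  · refine le_trans ?_ (Nat.le_add_left _ _)
    calc σ ^ (10 * f + 10) * μ ^ (2 * f + 2)
        = μ ^ 2 * (σ ^ (10 * f + 10) * (μ ^ 2) ^ f) := by
          rw [← pow_mul, show 2 * f + 2 = 2 + 2 * f by ring, pow_add]
          ring
      _ ≤ μ ^ 2 * (σ ^ (10 * f + 10) * (σ ^ 5) ^ f) :=
          Nat.mul_le_mul_left _ (Nat.mul_le_mul_left _ (Nat.pow_le_pow_left h _))
      _ = _ := by
          rw [← pow_mul, ← pow_add]
          congr 2
          ring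

theorem SKs_step {d k f C₀ : ℕ} (hk2 : 1 ≤ k) (hd : 1 ≤ d) (hC : 1 ≤ C₀) (hk : SKs d k f C₀) :
    SKs d (k + 1) (3 * f + 2) (C₀ * kap d ^ (6 * f + 6) * 2 ^ (200 * (f + 1))) := by
  intro V W _ H G hG μ σ D hcol hD hDσ hDμ hμ1 hVμ hμ hσ hσμ U hU
  have hσ1 : 1 ≤ σ := hD.trans hDσ
  have hed : 1 ≤ ed d := by
    rw [ed]
    omega
  have hed2 : 1 ≤ ed d ^ 2 := Nat.pow_pos hed
  have hκ1 : 1 ≤ kap d := by
    rw [kap]
    exact Nat.mul_pos (by norm_num) (Nat.mul_pos hd hed2)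
  have hκp : 1 ≤ kap d ^ (6 * f + 6) := Nat.pow_pos hκ1
  set C3 := C₀ * kap d ^ (6 * f + 6) with hC3def
  have hC3 : 1 ≤ C3 := Nat.mul_pos hC hκp
  have hC30 : C₀ ≤ C3 := Nat.le_mul_of_pos_right _ hκp
  have hC3κ : kap d ^ (6 * f + 6) ≤ C3 := Nat.le_mul_of_pos_left _ hC
  set Θ := μ ^ (6 * f + 6) + μ ^ 2 * σ ^ (15 * f + 10) with hΘ
  have hΘ1 : 1 ≤ Θ := le_trans (Nat.pow_pos hμ1) (Nat.le_add_right _ _)
  have hUe : C3 * 2 ^ (200 * (f + 1)) * Θ ≤ U.card ^ (6 * f + 6) := by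
    have e1 : 2 * (3 * f + 2) + 2 = 6 * f + 6 := by ring
    have e2 : 5 * (3 * f + 2) = 15 * f + 10 := by ring
    rw [e1, e2] at hU
    exact hU
  -- the number `M`
  set M := U.card / 256 with hM
  have hU256 : 256 ≤ U.card := by
    have h1 : (256 : ℕ) ^ (6 * f + 6) ≤ U.card ^ (6 * f + 6) := by
      refine le_trans ?_ hUe
      have h2 : (256 : ℕ) ^ (6 * f + 6) = 2 ^ (8 * (6 * f + 6)) := by
        rw [pow_mul]
        norm_num
      have h3 : 2 ^ (8 * (6 * f + 6)) ≤ 2 ^ (200 * (f + 1)) :=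
        Nat.pow_le_pow_right (by norm_num) (by omega)
      rw [h2]
      refine h3.trans ?_
      rw [mul_assoc]
      exact (Nat.le_mul_of_pos_right _ hΘ1).trans (Nat.le_mul_of_pos_left _ hC3)
    exact pow_root (by omega) h1
  have hUM : U.card ≤ 512 * M := by omega
  have hM1 : 1 ≤ M := by omega
  have hMe : C3 * 2 ^ (140 * (f + 1)) * Θ ≤ M ^ (6 * f + 6) := by
    have h1 : 2 ^ (60 * (f + 1)) * (C3 * 2 ^ (140 * (f + 1)) * Θ) ≤
        2 ^ (60 * (f + 1)) * M ^ (6 * f + 6) := by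
      have hab : 2 ^ (60 * (f + 1)) * 2 ^ (140 * (f + 1)) = 2 ^ (200 * (f + 1)) := by
        have e : 60 * (f + 1) + 140 * (f + 1) = 200 * (f + 1) := by ring
        rw [← pow_add, e]
      calc 2 ^ (60 * (f + 1)) * (C3 * 2 ^ (140 * (f + 1)) * Θ)
          = C3 * (2 ^ (60 * (f + 1)) * 2 ^ (140 * (f + 1))) * Θ := by
            generalize 2 ^ (60 * (f + 1)) = a
            generalize 2 ^ (140 * (f + 1)) = b
            ring
        _ = C3 * 2 ^ (200 * (f + 1)) * Θ := by rw [hab]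
        _ ≤ U.card ^ (6 * f + 6) := hUe
        _ ≤ (512 * M) ^ (6 * f + 6) := Nat.pow_le_pow_left hUM _
        _ = 2 ^ (9 * (6 * f + 6)) * M ^ (6 * f + 6) := by
            rw [mul_pow, pow_mul]
            norm_num
        _ ≤ 2 ^ (60 * (f + 1)) * M ^ (6 * f + 6) :=
            Nat.mul_le_mul_right _ (Nat.pow_le_pow_right (by norm_num) (by omega))
    exact Nat.le_of_mul_le_mul_left h1 (by positivity)
  have hMκ : kap d * μ ≤ M := by
    refine pow_root (n := 6 * f + 6) (by omega) ?_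
    calc (kap d * μ) ^ (6 * f + 6) = kap d ^ (6 * f + 6) * μ ^ (6 * f + 6) := mul_pow _ _ _
      _ ≤ C3 * Θ := Nat.mul_le_mul hC3κ (Nat.le_add_right _ _)
      _ ≤ C3 * 2 ^ (140 * (f + 1)) * Θ :=
          Nat.mul_le_mul_right _ (Nat.le_mul_of_pos_right _ (by positivity))
      _ ≤ _ := hMe
  have hMκ' : 1152921504606846976 * (d * ed d ^ 2 * μ) ≤ M := by
    have : kap d * μ = 1152921504606846976 * (d * ed d ^ 2 * μ) := by
      rw [kap]
      ring
    omega
  have hdμ1 : d * μ ≤ d * ed d ^ 2 * μ :=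
    Nat.mul_le_mul_right _ (Nat.le_mul_of_pos_right _ hed2)
  have hde2 : ed d ^ 2 * μ ≤ d * ed d ^ 2 * μ :=
    Nat.mul_le_mul_right _ (Nat.le_mul_of_pos_left _ hd)
  have hede : ed d ≤ ed d ^ 2 := Nat.le_self_pow (by norm_num) _
  -- the size for the second part
  set r := M ^ 3 / (1152921504606846976 * σ ^ 5) with hr
  have hσ5 : 0 < σ ^ 5 := Nat.pow_pos hσ1
  have hrM : 1152921504606846976 * (σ ^ 5 * r) ≤ M ^ 3 := by
    calc 1152921504606846976 * (σ ^ 5 * r) = 1152921504606846976 * σ ^ 5 * r := by ring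
      _ ≤ M ^ 3 := Nat.mul_div_le _ _
  have h2pow : (2305843009213693952 : ℕ) ^ (2 * f + 2) * 2 ≤ 2 ^ (140 * (f + 1)) := by
    have h1 : (2305843009213693952 : ℕ) ^ (2 * f + 2) = 2 ^ (61 * (2 * f + 2)) := by
      rw [pow_mul]
      norm_num
    rw [h1, ← pow_succ]
    exact Nat.pow_le_pow_right (by norm_num) (by omega)
  have hM3 : (2305843009213693952 * σ ^ 5) ^ (2 * f + 2) *
      (C₀ * (μ ^ (2 * f + 2) + μ ^ 2 * σ ^ (5 * f))) ≤ (M ^ 3) ^ (2 * f + 2) := by
    calc (2305843009213693952 * σ ^ 5) ^ (2 * f + 2) *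
          (C₀ * (μ ^ (2 * f + 2) + μ ^ 2 * σ ^ (5 * f)))
        = 2305843009213693952 ^ (2 * f + 2) * C₀ * (σ ^ (10 * f + 10) * μ ^ (2 * f + 2) +
            μ ^ 2 * σ ^ (15 * f + 10)) := by
          have e1 : (σ ^ 5) ^ (2 * f + 2) = σ ^ (10 * f + 10) := by
            rw [← pow_mul]
            congr 1
            ring
          have e2 : σ ^ (15 * f + 10) = σ ^ (10 * f + 10) * σ ^ (5 * f) := by
            rw [← pow_add]
            congr 1
            ring
          rw [mul_pow, e1, e2]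
          ring
      _ ≤ 2305843009213693952 ^ (2 * f + 2) * C₀ * (Θ + Θ) :=
          Nat.mul_le_mul_left _ (Nat.add_le_add (mix_le f μ σ) (Nat.le_add_left _ _))
      _ = C₀ * (2305843009213693952 ^ (2 * f + 2) * 2) * Θ := by
          generalize (2305843009213693952 : ℕ) ^ (2 * f + 2) = a
          ring
      _ ≤ C3 * 2 ^ (140 * (f + 1)) * Θ :=
          Nat.mul_le_mul_right _ (Nat.mul_le_mul hC30 h2pow)
      _ ≤ M ^ (6 * f + 6) := hMe
      _ = _ := by
          rw [← pow_mul]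
          congr 1
          ring
  have hpos : 1 ≤ C₀ * (μ ^ (2 * f + 2) + μ ^ 2 * σ ^ (5 * f)) :=
    Nat.mul_pos hC (le_trans (Nat.pow_pos hμ1) (Nat.le_add_right _ _))
  have hMσ5 : 2305843009213693952 * σ ^ 5 ≤ M ^ 3 := by
    refine pow_root (n := 2 * f + 2) (by omega) (le_trans ?_ hM3)
    exact Nat.le_mul_of_pos_right _ hpos
  have hr1 : 1 ≤ r := by
    rw [hr, Nat.le_div_iff_mul_le (by omega)]
    omega
  have hMr : M ^ 3 ≤ 2305843009213693952 * σ ^ 5 * r := by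
    have h1 : M ^ 3 < 1152921504606846976 * σ ^ 5 * (r + 1) :=
      Nat.lt_mul_div_succ _ (by omega)
    have h2 : 1152921504606846976 * σ ^ 5 * (r + 1) ≤ 1152921504606846976 * σ ^ 5 * (2 * r) :=
      Nat.mul_le_mul_left _ (by omega)
    have h3 : 1152921504606846976 * σ ^ 5 * (2 * r) = 2305843009213693952 * σ ^ 5 * r := by ring
    omega
  have hr2 : C₀ * (μ ^ (2 * f + 2) + μ ^ 2 * σ ^ (5 * f)) ≤ r ^ (2 * f + 2) := by
    have h1 : (2305843009213693952 * σ ^ 5) ^ (2 * f + 2) *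
        (C₀ * (μ ^ (2 * f + 2) + μ ^ 2 * σ ^ (5 * f))) ≤
        (2305843009213693952 * σ ^ 5) ^ (2 * f + 2) * r ^ (2 * f + 2) := by
      refine hM3.trans ?_
      rw [← mul_pow]
      exact Nat.pow_le_pow_left hMr _
    exact Nat.le_of_mul_le_mul_left h1 (Nat.pow_pos (by omega))
  -- parts
  obtain ⟨c, hc⟩ := hcol
  set A := univ.filter (fun v => c v = Fin.last k) with hA
  set B := univ.filter (fun v => c v ≠ Fin.last k) with hB
  have hcolB : ∀ P' ⊆ B, PartsD (Sub H P') k d D := by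
    intro P' hP'
    have hlt : ∀ v : {x // x ∈ P'}, (c v.1).1 < k := by
      intro v
      have h1 : c v.1 ≠ Fin.last k := (mem_filter.1 (hP' v.2)).2
      have h2 := (c v.1).2
      have h3 : (c v.1).1 ≠ k := fun h => h1 (Fin.ext h)
      omega
    refine ⟨fun v => (⟨(c v.1).1, hlt v⟩ : Fin k), fun i T hT hTne => ?_⟩
    obtain ⟨v, hv, hvd⟩ := hc i.castSucc (T.map (Function.Embedding.subtype _)) (by
      intro v hv
      obtain ⟨u, hu, rfl⟩ := mem_map.1 hv
      have h1 := hT u hu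
      refine Fin.ext ?_
      rw [← h1]
      rfl) (hTne.map)
    obtain ⟨u, hu, rfl⟩ := mem_map.1 hv
    exact ⟨u, hu, (sub_filter_card H P' T u).trans hvd⟩
  have hne : Nonempty W := by
    obtain ⟨x, -⟩ := card_pos.1 (by omega : 0 < U.card)
    exact ⟨x⟩
  have hneU : Nonempty {x // x ∈ U} := by
    obtain ⟨x, hx⟩ := card_pos.1 (by omega : 0 < U.card)
    exact ⟨⟨x, hx⟩⟩
  have hdat : CDat H A B d σ M μ r := by
    refine ⟨hd, fun T hT hTne => ?_, ?_, hσ1, hσ, hσμ, hμ1, hVμ, hμ, by omega, ?_, hrM⟩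
    · obtain ⟨v, hv, hvd⟩ := hc (Fin.last k) T (fun v hv => (mem_filter.1 (hT hv)).2) hTne
      refine ⟨v, hv, ?_⟩
      rw [if_neg (by rw [Fin.val_last]; omega)] at hvd
      exact hvd
    · intro v
      simp only [hA, hB, mem_union, mem_filter, mem_univ, true_and]
      exact em _
    · have h1 : σ ≤ 4 * μ := by
        have : σ ≤ σ ^ 2 := Nat.le_self_pow (by norm_num) σ
        omega
      have h2 : σ * ed d ≤ 4 * (ed d ^ 2 * μ) := by
        calc σ * ed d ≤ 4 * μ * ed d ^ 2 := Nat.mul_le_mul h1 hede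
          _ = _ := by ring
      omega
  obtain ⟨Z, hZ⟩ := cstep (sub_free hG U) hdat (fun P' hP' Z hZ => by
    refine emb_of_restrict (hk {x // x ∈ P'} {x // x ∈ U} (Sub H P') (Sub G U) (sub_free hG U)
      μ σ D (hcolB P' hP') hD hDσ hDμ hμ1 ?_ ((sub_deg_sum H P').trans hμ) (Dg_sub hσ P') hσμ Z
      (hr2.trans (Nat.pow_le_pow_left hZ _)))
    rw [Fintype.card_coe]
    exact (card_le_univ P').trans hVμ) univ (by
    rw [card_univ, Fintype.card_coe]
    omega)
  exact emb_of_sub hZ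

theorem SKs_all (d : ℕ) (hd : 1 ≤ d) (j : ℕ) :
    ∃ C : ℕ, 1 ≤ C ∧ SKs d (j + 2) (3 ^ j - 1) C := by
  induction j with
  | zero =>
    exact ⟨_, Nat.one_le_pow _ _ (Nat.mul_pos (by norm_num) (Nat.pow_pos hd)), SKs_base d hd⟩
  | succ j ih =>
    obtain ⟨C, hC, h⟩ := ih
    have hed : 1 ≤ ed d := by
      rw [ed]
      omega
    have hκ : 0 < kap d := by
      rw [kap]
      exact Nat.mul_pos (by norm_num) (Nat.mul_pos hd (Nat.pow_pos hed))
    refine ⟨C * kap d ^ (6 * (3 ^ j - 1) + 6) * 2 ^ (200 * (3 ^ j - 1 + 1)), ?_, ?_⟩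
    · exact Nat.mul_pos (Nat.mul_pos hC (Nat.pow_pos hκ)) (Nat.pow_pos (by norm_num))
    · have h1 := SKs_step (by omega) hd hC h
      have h2 : 0 < 3 ^ j := by positivity
      have e : 3 * (3 ^ j - 1) + 2 = 3 ^ (j + 1) - 1 := by
        rw [pow_succ]
        omega
      rw [e] at h1
      exact h1

end

end Pool.Agent.RamseyH5
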