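import Pool.Agent.RamseyH5C.Stage

set_option autoImplicit false

/-!
# Iterated halving over a fixed dyadic sequence of scales
-/

namespace Pool.Agent.RamseyH5

open Finset

section

open scoped Classical

variable {V W : Type}

/-- What is needed for the stage at scale `x`. -/
def NSrc (H : SimpleGraph V) (G : SimpleGraph W) (σ M x q Rc : ℕ) (X₀ : Finset W) : Prop :=
  ∀ X ⊆ X₀, (∀ y ∈ X, (nb G X y).card ≤ x) → M ≤ 8 * X.card →
    ∃ (PA PB : Finset V) (n : ℕ), n ≤ q ∧ PA.card ≤ n ∧ PB.card ≤ n ∧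
      EA H G PA q ∧ EA H G PB Rc ∧ Dg H PB σ ∧ ¬ Emb H G (PA ∪ PB) X

/-- The bound for the number of vertices removed at scale `x`. -/
def rem (σ M x q Rc : ℕ) : ℕ := 2 * (16 * (q * M) / x) + 32768 * σ ^ 2 * (M * Rc) / x ^ 3

theorem nprocess [Nonempty W] {G G' : SimpleGraph W} (hG : ¬ H5.IsContained G)
    (hGG : ∀ v x, G'.Adj v x → G.Adj v x) {H : SimpleGraph V}
    {O X₀ O₀ : Finset W} {σ Δ M c₀ E J : ℕ} {q Rc : ℕ → ℕ} (hσ : 1 ≤ σ) (hM : 1 ≤ M)
    (hE : 64 * σ ≤ E)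
    (hsrc : ∀ i < J, NSrc H G σ M (2 ^ (i + 1) * E) (q i) (Rc i) X₀)
    (hq : ∀ i < J, 65536 * q i ≤ 2 ^ (i + 1) * E) (hJΔ : 2 ^ J * E ≤ 2 * Δ)
    (hqO : ∀ i < J, 32 * (M * q i) ≤ Δ * O.card)
    (hsum : 32 * ∑ i ∈ range J, rem σ M (2 ^ (i + 1) * E) (q i) (Rc i) ≤ M)
    (hX₀M : X₀.card ≤ M) (hX₀4 : M ≤ 4 * X₀.card) (hO : 1 ≤ O.card)
    (hXO : ∀ x ∈ X₀, Δ * O.card ≤ 2 * M * (nb G' O x).card)
    (hlow : ∀ v ∈ O, ∀ X ⊆ X₀, Δ ≤ 256 * (nb G' X v).card →
      (nb G' X v).card < 2 * (Lo G σ (nb G' X v)).card)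
    (hInv : Inv G' O O₀ X₀ Δ M c₀) (hdeg : ∀ x ∈ X₀, (nb G X₀ x).card ≤ 2 ^ J * E) :
    ∃ (O' X : Finset W) (c : ℕ), X ⊆ X₀ ∧ Inv G' O O' X Δ M c ∧
      (∀ x ∈ X, (nb G X x).card ≤ E) ∧ 16 * (X₀ \ X).card ≤ M := by
  have hE1 : 1 ≤ E := by omega
  have hΔ1 : 1 ≤ Δ := by
    have : 0 < 2 ^ J * E := Nat.mul_pos (by positivity) hE1
    omega
  have key : ∀ m ≤ J, ∃ (O' X : Finset W) (c : ℕ), X ⊆ X₀ ∧ Inv G' O O' X Δ M c ∧
      (∀ x ∈ X, (nb G X x).card ≤ 2 ^ (J - m) * E) ∧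
      (X₀ \ X).card ≤ c + ∑ i ∈ range m,
        rem σ M (2 ^ (J - 1 - i + 1) * E) (q (J - 1 - i)) (Rc (J - 1 - i)) := by
    intro m
    induction m with
    | zero =>
      intro _
      refine ⟨O₀, X₀, c₀, subset_rfl, hInv, ?_, by simp⟩
      rw [Nat.sub_zero]
      exact hdeg
    | succ m ih =>
      intro hm
      obtain ⟨O₁, X₁, c₁, hX₁, hInv₁, hdeg₁, hcard₁⟩ := ih (by omega)
      obtain ⟨O', X, c, hO', hX, hXc, hInvc, hcl1, hcl2⟩ := closure G' O Δ M _ O₁ X₁ c₁ rfl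
        (fun x hx => hXO x (hX₁ hx)) hInv₁
      have hXX₀ : X ⊆ X₀ := hX.trans hX₁
      have hcM : 64 * c ≤ M := hInvc.bound hΔ1 hO
      set i := J - 1 - m with hi
      have hiJ : i < J := by omega
      have hi1 : J - m = i + 1 := by omega
      have hi2 : J - (m + 1) = i := by omega
      have hpart : ∑ i ∈ range m,
          rem σ M (2 ^ (J - 1 - i + 1) * E) (q (J - 1 - i)) (Rc (J - 1 - i)) ≤
          ∑ i ∈ range J, rem σ M (2 ^ (i + 1) * E) (q i) (Rc i) := by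
        rw [← sum_range_reflect (fun i => rem σ M (2 ^ (i + 1) * E) (q i) (Rc i)) J]
        exact sum_le_sum_of_subset (range_mono (by omega))
      have hXd : (X₀ \ X).card ≤ c + ∑ i ∈ range m,
          rem σ M (2 ^ (J - 1 - i + 1) * E) (q (J - 1 - i)) (Rc (J - 1 - i)) := by
        have h1 : (X₀ \ X).card ≤ (X₀ \ X₁).card + (X₁ \ X).card := by
          refine (card_le_card ?_).trans (card_union_le _ _)
          intro y hy
          obtain ⟨h1, h2⟩ := mem_sdiff.1 hy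
          by_cases h : y ∈ X₁
          · exact mem_union_right _ (mem_sdiff.2 ⟨h, h2⟩)
          · exact mem_union_left _ (mem_sdiff.2 ⟨h1, h⟩)
        omega
      have hXcard : X₀.card ≤ X.card + (X₀ \ X).card := by
        have := le_card_sdiff X X₀
        omega
      have hXdeg : ∀ x ∈ X, (nb G X x).card ≤ 2 ^ (i + 1) * E := fun x hx => by
        rw [← hi1]
        exact (card_le_card (nb_mono G hX x)).trans (hdeg₁ x (hX hx))
      obtain ⟨PA, PB, n, hnq, hPA, hPB, hPAq, hPBR, hPBD, hno⟩ :=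
        hsrc i hiJ X hXX₀ hXdeg (by omega)
      have hXM : X.card ≤ M := (card_le_card hXX₀).trans hX₀M
      have hDJ : 2 ^ (i + 1) * E ≤ 2 ^ J * E :=
        Nat.mul_le_mul_right _ (Nat.pow_le_pow_right (by norm_num) (by omega))
      have hEi : E ≤ 2 ^ (i + 1) * E := Nat.le_mul_of_pos_left _ (by positivity)
      obtain ⟨B1, B2, B3, hB1, hB2, hB3, hB⟩ := nstage hG hGG hσ hPA hPB hnq hPAq hPBR hPBD hno
        (2 ^ (i + 1) * E) Δ M O.card O' (by omega) (hq i hiJ) (by omega) hXM hM hO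
        (hqO i hiJ) (card_le_card hInvc.1) hcl1 hcl2
        (fun v hv => hlow v (hInvc.1 hv) X hXX₀ (hcl1 v hv))
      have hDpos : 0 < 2 ^ (i + 1) * E := by omega
      have hr : B1.card + B2.card + B3.card ≤ rem σ M (2 ^ (i + 1) * E) (q i) (Rc i) := by
        have h1 : B1.card ≤ 16 * (q i * M) / (2 ^ (i + 1) * E) := by
          rw [Nat.le_div_iff_mul_le hDpos]
          calc B1.card * (2 ^ (i + 1) * E) ≤ B1.card * (2 * Δ) :=
                Nat.mul_le_mul_left _ (hDJ.trans hJΔ)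
            _ = 2 * (B1.card * Δ) := by ring
            _ ≤ 2 * (8 * q i * M) := Nat.mul_le_mul_left _ hB1
            _ = _ := by ring
        have h2 : B2.card ≤ 32768 * σ ^ 2 * (M * Rc i) / (2 ^ (i + 1) * E) ^ 3 := by
          rw [Nat.le_div_iff_mul_le (Nat.pow_pos hDpos)]
          exact hB2
        have h3 : B3.card ≤ 16 * (q i * M) / (2 ^ (i + 1) * E) := by
          rw [Nat.le_div_iff_mul_le hDpos]
          calc B3.card * (2 ^ (i + 1) * E) ≤ 16 * q i * M := hB3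
            _ = _ := by ring
        rw [rem]
        omega
      refine ⟨O', X \ (B1 ∪ B2 ∪ B3), c, sdiff_subset.trans hXX₀, hInvc.subset sdiff_subset,
        ?_, ?_⟩
      · intro x hx
        obtain ⟨h1, h2⟩ := mem_sdiff.1 hx
        rw [mem_union, not_or, mem_union, not_or] at h2
        have h3 := hB x h1 h2.1.1 h2.1.2 h2.2
        have h4 := card_le_card (nb_mono G (sdiff_subset : X \ (B1 ∪ B2 ∪ B3) ⊆ X) x)
        have h5 : 2 ^ (i + 1) * E = 2 * (2 ^ i * E) := by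
          rw [pow_succ]
          ring
        rw [hi2]
        omega
      · have h1 : (X₀ \ (X \ (B1 ∪ B2 ∪ B3))).card ≤ (X₀ \ X).card + (B1 ∪ B2 ∪ B3).card := by
          refine (card_le_card ?_).trans (card_union_le _ _)
          intro y hy
          obtain ⟨h1, h2⟩ := mem_sdiff.1 hy
          by_cases h : y ∈ X
          · refine mem_union_right _ ?_
            by_contra h3
            exact h2 (mem_sdiff.2 ⟨h, h3⟩)
          · exact mem_union_left _ (mem_sdiff.2 ⟨h1, h⟩)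
        have h2 := card_union_le (B1 ∪ B2) B3
        have h3 := card_union_le B1 B2
        rw [sum_range_succ, ← hi]
        omega
  obtain ⟨O', X, c, hX, hInvX, hdegX, hcardX⟩ := key J le_rfl
  rw [Nat.sub_self, pow_zero, Nat.one_mul] at hdegX
  refine ⟨O', X, c, hX, hInvX, hdegX, ?_⟩
  have hcM : 64 * c ≤ M := hInvX.bound hΔ1 hO
  have h1 := sum_range_reflect (fun i => rem σ M (2 ^ (i + 1) * E) (q i) (Rc i)) J
  rw [h1] at hcardX
  omega

end

end Pool.Agent.RamseyH5
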