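import Pool.Agent.RamseyH5C.Step

set_option autoImplicit false

/-!
# Two parts of bounded degeneracy
-/

namespace Pool.Agent.RamseyH5

open Finset

section

open scoped Classical

variable {V W : Type}

/-- Data of the graph to be embedded. -/
structure SDat (H : SimpleGraph V) (A B : Finset V) (d D σ M μ : ℕ) [Fintype V] : Prop where
  hd1 : 1 ≤ d
  hD1 : 1 ≤ D
  hDσ : D ≤ σ
  hAD : Dg H A d
  hBD : Dg H B D
  hσ : Dg H univ σ
  hσμ : σ ^ 2 ≤ 4 * μ
  hcov : ∀ v, v ∈ A ∪ B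
  hμ1 : 1 ≤ μ
  hVμ : Fintype.card V ≤ μ
  hμ : ∑ v : V, (univ.filter (fun u => H.Adj v u)).card ≤ μ
  hMμ : 1073741824 * (d * μ) ≤ M
  hMe : 1073741824 * (σ * ed d) ≤ M
  hMD : 17592186044416 * (σ ^ 2 * D ^ 3) ≤ M ^ 2

theorem csparse [Nonempty W] [Fintype V] {G : SimpleGraph W} (hG : ¬ H5.IsContained G)
    {H : SimpleGraph V} {A B : Finset V} {d D σ M μ : ℕ} (h : SDat H A B d D σ M μ)
    (U : Finset W) (hU : 256 * M ≤ U.card) : ∃ Z : Finset W, Emb H G univ Z := by
  have hd1 := h.hd1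
  have hD1 := h.hD1
  have hDσ := h.hDσ
  have hσ1 : 1 ≤ σ := hD1.trans hDσ
  have hμ1 := h.hμ1
  have hMμ := h.hMμ
  have hMe := h.hMe
  have hMD := h.hMD
  have hσμ := h.hσμ
  have hV := h.hVμ
  have hμd : μ ≤ d * μ := Nat.le_mul_of_pos_left μ hd1
  have hM1 : 1 ≤ M := by omega
  have hed : 1 ≤ ed d := by
    rw [ed]
    omega
  set E := M / (16 * σ) with hEdef
  have hσE : 16 * (σ * E) ≤ M := by
    calc 16 * (σ * E) = 16 * σ * (M / (16 * σ)) := by rw [hEdef]; ring
      _ ≤ M := Nat.mul_div_le _ _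
  have hE2048 : 2048 * σ ≤ E := by
    rw [hEdef, Nat.le_div_iff_mul_le (by omega)]
    have : 2048 * σ * (16 * σ) = 32768 * σ ^ 2 := by ring
    omega
  have hEe : 131072 * ed d ≤ E := by
    rw [hEdef, Nat.le_div_iff_mul_le (by omega)]
    have : 131072 * ed d * (16 * σ) = 2097152 * (σ * ed d) := by ring
    omega
  have hE1 : 1 ≤ E := by omega
  have hMσE : M ≤ 32 * (σ * E) := by
    have h1 : M < 16 * σ * (E + 1) := Nat.lt_mul_div_succ M (by omega)
    have h2 : 16 * σ * (E + 1) ≤ 16 * σ * (2 * E) := Nat.mul_le_mul_left _ (by omega)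
    have h3 : 16 * σ * (2 * E) = 32 * (σ * E) := by ring
    omega
  have hedD : 4398046511104 * (D ^ 2 * ed D) ≤ E ^ 3 := by
    by_contra hc
    push Not at hc
    have h1 := Nat.pow_lt_pow_left hc (n := 2) (by norm_num)
    have h2 : (32 * σ) ^ 6 * (4398046511104 * (D ^ 2 * ed D)) ^ 2 ≤
        (32 * σ) ^ 6 * (E ^ 3) ^ 2 := by
      calc (32 * σ) ^ 6 * (4398046511104 * (D ^ 2 * ed D)) ^ 2
          = 1073741824 * 19342813113834066795298816 * σ ^ 6 * D ^ 4 * ed D ^ 2 := by ring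
        _ ≤ 1073741824 * 19342813113834066795298816 * σ ^ 6 * D ^ 4 * (131072 * D ^ 5) :=
            Nat.mul_le_mul_left _ (ed_upper hD1)
        _ = 2722258935367507707706996859454145691648 * (σ ^ 2 * D ^ 3) ^ 3 := by ring
        _ ≤ 5444517870735015415413993718908291383296 * (σ ^ 2 * D ^ 3) ^ 3 :=
            Nat.mul_le_mul_right _ (by norm_num)
        _ = (17592186044416 * (σ ^ 2 * D ^ 3)) ^ 3 := by ring
        _ ≤ (M ^ 2) ^ 3 := Nat.pow_le_pow_left hMD 3
        _ = M ^ 6 := by ring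
        _ ≤ (32 * (σ * E)) ^ 6 := Nat.pow_le_pow_left hMσE 6
        _ = _ := by ring
    have h3 := Nat.le_of_mul_le_mul_left h2 (Nat.pow_pos (by omega))
    omega
  refine cgen hG (E := E) ⟨hd1, h.hAD, h.hBD, h.hcov, hD1, hμ1, h.hVμ, h.hμ, hMμ, by omega, hEe⟩
    (fun x => 64 * ((Cr H M x).card * D) + ed D)
    (fun x => embA hG hD1 h.hBD inter_subset_right (card_le_card inter_subset_left))
    ?_ ?_ U hU
  · intro t ht
    show 2199023255552 * (D ^ 2 * (64 * ((Cr H M (2 * t)).card * D) + ed D)) ≤ E * t ^ 2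
    set n := (Cr H M (2 * t)).card with hn
    have hnM : n * M ≤ 16 * μ * (2 * t) := Cr_card (2 * t) h.hμ
    have hkey : 9007199254740992 * (μ * D ^ 3) ≤ E ^ 2 * M := by
      have h2 : (32 * σ) ^ 2 * (9007199254740992 * (μ * D ^ 3)) ≤ (32 * σ) ^ 2 * (E ^ 2 * M) := by
        calc (32 * σ) ^ 2 * (9007199254740992 * (μ * D ^ 3))
            = (17592186044416 * (σ ^ 2 * D ^ 3)) * (524288 * μ) := by ring
          _ ≤ M ^ 2 * M := Nat.mul_le_mul hMD (by omega)
          _ ≤ (32 * (σ * E)) ^ 2 * M :=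
              Nat.mul_le_mul_right _ (Nat.pow_le_pow_left hMσE 2)
          _ = _ := by ring
      exact Nat.le_of_mul_le_mul_left h2 (Nat.pow_pos (by omega))
    have h1 : 2 * (140737488355328 * (D ^ 3 * n)) ≤ E * t ^ 2 := by
      have h2 : M * (2 * (140737488355328 * (D ^ 3 * n))) ≤ M * (E * t ^ 2) := by
        calc M * (2 * (140737488355328 * (D ^ 3 * n)))
            = 281474976710656 * D ^ 3 * (n * M) := by ring
          _ ≤ 281474976710656 * D ^ 3 * (16 * μ * (2 * t)) := Nat.mul_le_mul_left _ hnM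
          _ = 9007199254740992 * (μ * D ^ 3) * t := by ring
          _ ≤ E ^ 2 * M * t := Nat.mul_le_mul_right _ hkey
          _ = M * (E * (E * t)) := by ring
          _ ≤ M * (E * (t * t)) :=
              Nat.mul_le_mul_left _ (Nat.mul_le_mul_left _ (Nat.mul_le_mul_right _ ht))
          _ = _ := by ring
      exact Nat.le_of_mul_le_mul_left h2 (by omega)
    have h3 : 4398046511104 * (D ^ 2 * ed D) ≤ E * t ^ 2 := by
      calc 4398046511104 * (D ^ 2 * ed D) ≤ E ^ 3 := hedD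
        _ = E * E ^ 2 := by ring
        _ ≤ _ := Nat.mul_le_mul_left _ (Nat.pow_le_pow_left ht 2)
    have e1 : 2199023255552 * (D ^ 2 * (64 * (n * D) + ed D)) =
        140737488355328 * (D ^ 3 * n) + 2199023255552 * (D ^ 2 * ed D) := by ring
    omega
  · intro hno X hX hXd
    exact hno X (embed_degenerate H G univ σ h.hσ X E hXd (by rw [card_univ]; omega))

end

end Pool.Agent.RamseyH5
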