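import Pool.Agent.RamseyH5C.Key

set_option autoImplicit false

/-!
# One halving of the maximum degree, with a general host structure

The hosts are given by a subgraph `G'` of `G`. Vertices of small degree are set aside.
-/

namespace Pool.Agent.RamseyH5

open Finset

section

open scoped Classical

variable {V W : Type}

/-- Vertices of moderate degree form few pairs. -/
theorem pd_lt [Nonempty W] {G : SimpleGraph W} (hG : ¬ H5.IsContained G)
    {H : SimpleGraph V} {PA PB : Finset V} {n q Rc : ℕ} {X : Finset W}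
    (hPB : PB.card ≤ n) (hnq : n ≤ q) (hPAq : EA H G PA q) (hPBR : EA H G PB Rc)
    (hno : ¬ Emb H G (PA ∪ PB) X) (x : W) (hd : 4 * q ≤ (nb G X x).card) :
    (Pd G X x).card < Rc := by
  by_contra hcon
  push Not at hcon
  obtain ⟨I, hI, hIc, e3⟩ := (hPBR _ hcon).image
  obtain ⟨Y, hY, hYc, hsep⟩ := pick G (nb G X x) I 2 q
    (fun y hy => nb_PP hG (mem_Pd.1 (hI hy)).2.1 (mem_Pd.1 (hI hy)).2.2 _
      (fun z hz => (mem_nb.1 hz).2)) (by
        have := Nat.mul_le_mul_right 3 (hIc.trans hPB)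
        omega)
  have e1 : Emb H G PA Y := hPAq Y hYc.ge
  exact hno ((e1.union e3 hsep.symm).mono (union_subset (hY.trans (nb_subset G X x))
    (hI.trans (Pd_subset G X x))))

theorem nstage [Nonempty W] {G G' : SimpleGraph W} (hG : ¬ H5.IsContained G)
    (hGG : ∀ v x, G'.Adj v x → G.Adj v x) {H : SimpleGraph V}
    {PA PB : Finset V} {σ n q Rc : ℕ} {X : Finset W} (hσ : 1 ≤ σ) (hPA : PA.card ≤ n)
    (hPB : PB.card ≤ n) (hnq : n ≤ q) (hPAq : EA H G PA q) (hPBR : EA H G PB Rc)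
    (hPBD : Dg H PB σ)
    (hno : ¬ Emb H G (PA ∪ PB) X) (Dc Δ M Os : ℕ) (O' : Finset W) (hσD : 64 * σ ≤ Dc)
    (hnD : 65536 * q ≤ Dc) (hDΔ : Dc ≤ 2 * Δ) (hXM : X.card ≤ M) (hM : 1 ≤ M)
    (hOs1 : 1 ≤ Os) (hOs : 32 * (M * q) ≤ Δ * Os) (hO' : O'.card ≤ Os)
    (hcl1 : ∀ v ∈ O', Δ ≤ 256 * (nb G' X v).card)
    (hcl2 : ∀ x ∈ X, Δ * Os ≤ 4 * M * (nb G' O' x).card)
    (hlow : ∀ v ∈ O', (nb G' X v).card < 2 * (Lo G σ (nb G' X v)).card) :
    ∃ B1 B2 B3 : Finset W, B1.card * Δ ≤ 8 * q * M ∧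
      B2.card * Dc ^ 3 ≤ 32768 * σ ^ 2 * (M * Rc) ∧ B3.card * Dc ≤ 16 * q * M ∧
      ∀ u ∈ X, u ∉ B1 → u ∉ B2 → u ∉ B3 → 2 * (nb G X u).card < Dc := by
  have hn : 1 ≤ n := by
    by_contra hcon
    have h1 : PA = ∅ := card_eq_zero.1 (by omega)
    have h2 : PB = ∅ := card_eq_zero.1 (by omega)
    rw [h1, h2, union_empty] at hno
    exact hno (Emb_empty H G X)
  let Z : W → Finset W := fun v => Fw G X n (nb G' X v).card (nb G' X v)
  let T' : W → Finset W := fun v => nb G' X v \ Z v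
  let E : W → Finset W := fun v => Fw G X n (nb G' X v).card (T' v)
  have htn : ∀ v ∈ O', 64 * q ≤ (nb G' X v).card := by
    intro v hv
    have := hcl1 v hv
    omega
  have hZ : ∀ v ∈ O', (Z v).card < q := fun v hv =>
    gfw_lt hσ hPA hPB hnq hPAq hPBD hno hn _ _ (nb_subset G' X v) subset_rfl (by omega)
      (htn v hv) (hlow v hv)
  have hE : ∀ v ∈ O', (E v).card < q := fun v hv =>
    gfw_lt hσ hPA hPB hnq hPAq hPBD hno hn _ _ (nb_subset G' X v) sdiff_subset (by
      have h1 : (nb G' X v).card - (Z v).card ≤ (T' v).card := le_card_sdiff (Z v) (nb G' X v)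
      have h2 := hZ v hv
      omega) (htn v hv) (hlow v hv)
  let ex : W → Finset W := fun u => O'.filter (fun v => u ∈ E v)
  let L := X.filter (fun x => (nb G X x).card < 4 * q)
  let Y := X \ L
  let B1 := X.filter (fun u => (nb G' O' u).card ≤ 2 * (ex u).card)
  let B2 := X.filter (fun u => Dc ≤ 4 * (nb G Y u).card ∧
    2 * (Lo G σ (nb G Y u)).card ≤ (nb G Y u).card)
  let B3 := X.filter (fun u => Dc ≤ 2 * (nb G X u).card ∧
    (nb G X u).card ≤ 2 * (nb G L u).card)
  have hYX : Y ⊆ X := sdiff_subset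
  have hLX : L ⊆ X := filter_subset _ _
  have hPdY : ∀ x ∈ Y, (Pd G X x).card < Rc := by
    intro x hx
    obtain ⟨hxX, hxL⟩ := mem_sdiff.1 hx
    refine pd_lt hG hPB hnq hPAq hPBR hno x ?_
    by_contra h
    exact hxL (mem_filter.2 ⟨hxX, by omega⟩)
  refine ⟨B1, B2, B3, ?_, ?_, ?_, ?_⟩
  · have h1 : Os * (B1.card * Δ) ≤ Os * (8 * q * M) := by
      calc Os * (B1.card * Δ) = B1.card * (Δ * Os) := by ring
        _ = ∑ _u ∈ B1, Δ * Os := by rw [sum_const, smul_eq_mul]
        _ ≤ ∑ u ∈ B1, 4 * M * (2 * (ex u).card) :=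
            sum_le_sum fun u hu => (hcl2 u (mem_filter.1 hu).1).trans
              (Nat.mul_le_mul_left _ (mem_filter.1 hu).2)
        _ = 8 * M * ∑ u ∈ B1, (ex u).card := by
            rw [mul_sum]
            exact sum_congr rfl fun u _ => by ring
        _ ≤ 8 * M * ∑ u ∈ X, (ex u).card :=
            Nat.mul_le_mul_left _ (sum_le_sum_of_subset (filter_subset _ _))
        _ = 8 * M * ∑ v ∈ O', (E v).card := by
            congr 1
            simp only [ex, card_filter]
            rw [sum_comm]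
            refine sum_congr rfl fun v _ => ?_
            rw [← card_filter]
            congr 1
            ext u
            simp only [mem_filter]
            exact ⟨fun h => h.2, fun h => ⟨filter_subset _ _ h, h⟩⟩
        _ ≤ 8 * M * ∑ _v ∈ O', q :=
            Nat.mul_le_mul_left _ (sum_le_sum fun v hv => (hE v hv).le)
        _ = 8 * M * (O'.card * q) := by rw [sum_const, smul_eq_mul]
        _ ≤ 8 * M * (Os * q) := Nat.mul_le_mul_left _ (Nat.mul_le_mul_right _ hO')
        _ = _ := by ring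
    exact Nat.le_of_mul_le_mul_left h1 hOs1
  · have h1 : ∀ u ∈ B2, Dc ^ 3 ≤ 16384 * σ ^ 2 * ∑ w ∈ nb G Y u,
        ((Y.filter (fun x => G.Adj x u ∧ G.Adj x w)).offDiag).card := by
      intro u hu
      obtain ⟨huX, hu1, hu2⟩ := mem_filter.1 hu
      have h2 := lower G Y (nb G Y u) u (8 * σ) (nb_subset G Y u)
        (fun w hw => (mem_nb.1 hw).2) hu2 (by omega)
      calc Dc ^ 3 ≤ (4 * (nb G Y u).card) ^ 3 := Nat.pow_le_pow_left hu1 3
        _ = 64 * (nb G Y u).card ^ 3 := by ring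
        _ ≤ 64 * (4 * (8 * σ) ^ 2 * ∑ w ∈ nb G Y u,
            ((Y.filter (fun x => G.Adj x u ∧ G.Adj x w)).offDiag).card) :=
            Nat.mul_le_mul_left _ h2
        _ = _ := by ring
    have h3 := count_le hG B2 Y (fun u => nb G Y u) (fun u _ w hw => (mem_nb.1 hw).2)
    have h4 : ∑ x ∈ Y, (Pd G Y x).card ≤ M * Rc := by
      calc ∑ x ∈ Y, (Pd G Y x).card ≤ ∑ _x ∈ Y, Rc :=
            sum_le_sum fun x hx => (card_le_card (Pd_mono G hYX x)).trans (hPdY x hx).le
        _ = Y.card * Rc := by rw [sum_const, smul_eq_mul]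
        _ ≤ M * Rc := Nat.mul_le_mul_right _ ((card_le_card hYX).trans hXM)
    calc B2.card * Dc ^ 3 = ∑ _u ∈ B2, Dc ^ 3 := by rw [sum_const, smul_eq_mul]
      _ ≤ ∑ u ∈ B2, 16384 * σ ^ 2 * ∑ w ∈ nb G Y u,
          ((Y.filter (fun x => G.Adj x u ∧ G.Adj x w)).offDiag).card := sum_le_sum h1
      _ = 16384 * σ ^ 2 * ∑ u ∈ B2, ∑ w ∈ nb G Y u,
          ((Y.filter (fun x => G.Adj x u ∧ G.Adj x w)).offDiag).card := by rw [← mul_sum]
      _ ≤ 16384 * σ ^ 2 * (2 * (M * Rc)) :=
          Nat.mul_le_mul_left _ (h3.trans (Nat.mul_le_mul_left _ h4))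
      _ = _ := by ring
  · calc B3.card * Dc = ∑ _u ∈ B3, Dc := by rw [sum_const, smul_eq_mul]
      _ ≤ ∑ u ∈ B3, 4 * (nb G L u).card := by
          refine sum_le_sum fun u hu => ?_
          obtain ⟨-, h1, h2⟩ := mem_filter.1 hu
          omega
      _ ≤ ∑ u ∈ X, 4 * (nb G L u).card := sum_le_sum_of_subset (filter_subset _ _)
      _ = 4 * ∑ x ∈ L, (nb G X x).card := by rw [← mul_sum, nb_comm]
      _ ≤ 4 * ∑ _x ∈ L, 4 * q :=
          Nat.mul_le_mul_left _ (sum_le_sum fun x hx => (mem_filter.1 hx).2.le)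
      _ = 16 * q * L.card := by
          rw [sum_const, smul_eq_mul]
          ring
      _ ≤ 16 * q * M := Nat.mul_le_mul_left _ ((card_le_card hLX).trans hXM)
  · intro u huX hu1 hu2 hu3
    by_contra hcon
    push Not at hcon
    have hsplit : (nb G X u).card ≤ (nb G Y u).card + (nb G L u).card := by
      refine (card_le_card ?_).trans (card_union_le _ _)
      intro y hy
      obtain ⟨h1, h2⟩ := mem_nb.1 hy
      by_cases h : y ∈ L
      · exact mem_union_right _ (mem_nb.2 ⟨h, h2⟩)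
      · exact mem_union_left _ (mem_nb.2 ⟨mem_sdiff.2 ⟨h1, h⟩, h2⟩)
    have hb3 : 2 * (nb G L u).card < (nb G X u).card := by
      by_contra h
      exact hu3 (mem_filter.2 ⟨huX, hcon, by omega⟩)
    have hY4 : Dc ≤ 4 * (nb G Y u).card := by omega
    have hd : (nb G Y u).card < 2 * (Lo G σ (nb G Y u)).card := by
      by_contra h
      exact hu2 (mem_filter.2 ⟨huX, hY4, by omega⟩)
    have hex : 2 * (ex u).card < (nb G' O' u).card := by
      by_contra h
      exact hu1 (mem_filter.2 ⟨huX, by omega⟩)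
    have hbig : 8 * q ≤ (nb G' O' u).card := by
      have h1 := hcl2 u huX
      have h2 : 4 * M * (8 * q) ≤ 4 * M * (nb G' O' u).card := by
        calc 4 * M * (8 * q) = 32 * (M * q) := by ring
          _ ≤ Δ * Os := hOs
          _ ≤ _ := h1
      exact Nat.le_of_mul_le_mul_left h2 (by omega)
    have hKc : (nb G' O' u).card ≤ (nb G' O' u \ ex u).card + (ex u).card := by
      have := le_card_sdiff (ex u) (nb G' O' u)
      omega
    have hK := count_one hG X (nb G' O' u \ ex u) u (by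
      intro v hv
      obtain ⟨hv1, hv2⟩ := mem_sdiff.1 hv
      obtain ⟨hvO, huv⟩ := mem_nb.1 hv1
      have huE : u ∉ E v := fun h => hv2 (mem_filter.2 ⟨hvO, h⟩)
      have h1 : (nb G' X v).card < 8 * n * (nb G (T' v) u).card := by
        by_contra h
        exact huE (mem_filter.2 ⟨huX, by omega⟩)
      have h2 : 0 < (nb G (T' v) u).card := by
        by_contra h
        have h0 : (nb G (T' v) u).card = 0 := by omega
        rw [h0] at h1
        omega
      obtain ⟨a, ha⟩ := card_pos.1 h2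
      obtain ⟨ha1, hua⟩ := mem_nb.1 ha
      obtain ⟨ha2, ha3⟩ := mem_sdiff.1 ha1
      obtain ⟨haX, hva⟩ := mem_nb.1 ha2
      have h3 : (nb G' X v).card < 8 * n * (nb G (nb G' X v) a).card := by
        by_contra h
        exact ha3 (mem_filter.2 ⟨haX, by omega⟩)
      have h4 : 1 < (nb G (nb G' X v) a).card := by
        by_contra h
        have h5 : (nb G (nb G' X v) a).card ≤ 1 := by omega
        have h6 := Nat.mul_le_mul_left (8 * n) h5
        have h7 := htn v hvO
        omega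
      obtain ⟨y, hy, hyu⟩ := exists_mem_ne h4 u
      obtain ⟨hy1, hay⟩ := mem_nb.1 hy
      obtain ⟨hyX, hvy⟩ := mem_nb.1 hy1
      exact ⟨a, y, hyX, hyu, hGG _ _ hva, hGG _ _ huv, hua, (hGG _ _ hvy).symm, hay.symm⟩)
    have hPd : q ≤ (Pd G X u).card := by omega
    have h9 := glo_embed hσ hPA hPB hPAq hPBD hno (nb G Y u) (Lo G σ (nb G Y u)) (Pd G X u) 2
      ((nb_subset G Y u).trans hYX) (Pd_subset G X u) subset_rfl
      (fun y hy => nb_PP hG (mem_Pd.1 hy).2.1 (mem_Pd.1 hy).2.2 _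
        (fun z hz => (mem_nb.1 (Lo_subset G σ _ hz)).2)) (by omega)
    omega

end

end Pool.Agent.RamseyH5
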