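import Pool.Agent.RamseyH5C.Gen

set_option autoImplicit false

/-!
# The refined join step: assembly
-/

namespace Pool.Agent.RamseyH5

open Finset

section

open scoped Classical

variable {V W : Type}

/-- Data of the graph to be embedded. -/
structure EDat (H : SimpleGraph V) (A B : Finset V) (d σ M μ E : ℕ) [Fintype V] : Prop where
  hd1 : 1 ≤ d
  hAD : Dg H A d
  hBσ : Dg H B σ
  hcov : ∀ v, v ∈ A ∪ B
  hσ1 : 1 ≤ σ
  hμ1 : 1 ≤ μ
  hVμ : Fintype.card V ≤ μ
  hμ : ∑ v : V, (univ.filter (fun u => H.Adj v u)).card ≤ μ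
  hMμ : 1073741824 * (d * μ) ≤ M
  hEσ : 2048 * σ ≤ E
  hEe : 131072 * ed d ≤ E

/-- The general step. -/
theorem cgen [Nonempty W] [Fintype V] {G : SimpleGraph W} (hG : ¬ H5.IsContained G)
    {H : SimpleGraph V} {A B : Finset V} {d σ M μ E : ℕ} (h : EDat H A B d σ M μ E)
    (Rc : ℕ → ℕ) (hEB : ∀ x, EA H G (Cr H M x ∩ B) (Rc x))
    (hR : ∀ t, E ≤ t → 2199023255552 * (σ ^ 2 * Rc (2 * t)) ≤ E * t ^ 2)
    (fin : (∀ Z : Finset W, ¬ Emb H G univ Z) → ∀ X : Finset W, M ≤ 8 * X.card →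
      (∀ x ∈ X, (nb G X x).card ≤ E) → False)
    (U : Finset W) (hU : 256 * M ≤ U.card) : ∃ Z : Finset W, Emb H G univ Z := by
  by_contra hcon
  push Not at hcon
  have hno : ∀ Z : Finset W, ¬ Emb H G univ Z := hcon
  have fin := fin hno
  have hσ1 := h.hσ1
  have hd1 := h.hd1
  have hμ1 := h.hμ1
  have hMμ := h.hMμ
  have hV := h.hVμ
  have hEσ := h.hEσ
  have hEe := h.hEe
  have hdμ1 : 1 ≤ d * μ := Nat.mul_pos hd1 hμ1
  have hμd : μ ≤ d * μ := Nat.le_mul_of_pos_left μ hd1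
  have hM1 : 1 ≤ M := by omega
  have hed : 1 ≤ ed d := by
    rw [ed]
    omega
  have hE64 : 64 * σ ≤ E := by omega
  have hPeq : ∀ x : ℕ, Cr H M x ⊆ (Cr H M x ∩ A) ∪ (Cr H M x ∩ B) := by
    intro x y hy
    have := h.hcov y
    simp only [mem_union, mem_inter] at this ⊢
    tauto
  have hcore : ∀ (x : ℕ) (R' : Finset W), 1 ≤ x → M ≤ 8 * R'.card →
      (∀ y ∈ R', (nb G R' y).card ≤ x) → ∀ Hst : Finset W,
      (∀ y ∈ Hst, (nb G R' y).card ≤ x) →
      ¬ Emb H G ((Cr H M x ∩ A) ∪ (Cr H M x ∩ B)) Hst :=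
    fun x R' hx hR' hd Hst hHst => Cr_core hno (by omega) R' x hx hR' hd _ (hPeq x) Hst hHst
  have hEA : ∀ x : ℕ, EA H G (Cr H M x ∩ A) (qf H M d x) := fun x =>
    embA hG hd1 h.hAD inter_subset_right (card_le_card inter_subset_left)
  have hEB' : ∀ x y : ℕ, x ≤ y → EA H G (Cr H M x ∩ B) (Rc y) := fun x y hxy Z hZ =>
    (hEB y Z hZ).subset (inter_subset_inter (Cr_mono H M hxy) subset_rfl)
  have hBσ : ∀ x : ℕ, Dg H (Cr H M x ∩ B) σ := fun x => h.hBσ.mono inter_subset_right le_rfl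
  have hnq : ∀ x : ℕ, (Cr H M x).card ≤ qf H M d x := fun x => le_q hd1
  have hqs : ∀ x : ℕ, E ≤ x → 65536 * qf H M d x ≤ x := fun x hx =>
    qf_small hμ1 h.hμ hMμ (hEe.trans hx)
  obtain ⟨Δ, hf, R, hRM, hRd⟩ := exists_extremal G U M hM1 (by omega)
  rcases Nat.lt_or_ge E Δ with hcase | hcase
  swap
  · exact fin R (by omega) (fun x hx => (hRd x hx).trans hcase)
  -- few vertices have small degree into a large part of `R`
  have nohost : ∀ R' ⊆ R, M ≤ 8 * R'.card → ∀ Q : Finset W,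
      (∀ x ∈ Q, (nb G R' x).card ≤ Δ) → Q.card < 64 * M := by
    intro R' hR' hR'c Q hQ
    by_contra hc
    push Not at hc
    have hnoQ := hcore Δ R' (by omega) hR'c
      (fun x hx => (card_le_card (nb_mono G hR' x)).trans (hRd x (hR' hx))) Q hQ
    have hn1 : 1 ≤ (Cr H M Δ).card := by
      by_contra h0
      have hP0 : Cr H M Δ = ∅ := card_eq_zero.1 (by omega)
      refine hnoQ ?_
      rw [hP0, empty_inter, empty_inter, empty_union]
      exact Emb_empty H G Q
    refine hnoQ (cbig hG H (Cr H M Δ ∩ A) (Cr H M Δ ∩ B) σ (Cr H M Δ).card (qf H M d Δ) Δ M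
      (Rc (2 * Δ)) (64 * M) hσ1 (hBσ Δ) (card_le_card inter_subset_left)
      (card_le_card inter_subset_left) (hnq Δ) (hEA Δ) (hEB' Δ (2 * Δ) (by omega)) hn1 ?_
      (by omega) ?_ hf (by omega) hM1 Q hc)
    · have := hqs Δ hcase.le
      omega
    · calc 32768 * (σ ^ 2 * Rc (2 * Δ)) ≤ 2199023255552 * (σ ^ 2 * Rc (2 * Δ)) :=
            Nat.mul_le_mul_right _ (by norm_num)
        _ ≤ E * Δ ^ 2 := hR Δ hcase.le
        _ ≤ Δ * Δ ^ 2 := Nat.mul_le_mul_right _ hcase.le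
        _ = Δ ^ 3 := by ring
  -- the hosts
  have hsumw := hw_sum (H := H) (M := M) (μ := μ) (d := d) (Δ := Δ) M (by omega) h.hμ hdμ1
    (by omega) (by omega)
  have hUR : U.card ≤ (U \ R).card + M := by
    have := le_card_sdiff R U
    omega
  obtain ⟨j, -, R', hR', hR'c, O, hO, hOd, hOw⟩ := scale_pick G (U \ R) R M Δ M (hw H M d Δ)
    (by omega) (by
      rw [hRM]
      calc M ≤ 2 ^ M := Nat.lt_two_pow_self.le
        _ ≤ 2 ^ M * Δ := Nat.le_mul_of_pos_right _ (by omega)) (by omega) nohost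
  have hjM : 2 ^ j * Δ ≤ M := by
    have h1 := hOw R subset_rfl (by omega)
    obtain ⟨v, hv⟩ := card_pos.1 (by omega : 0 < (O.filter (fun v =>
      2 ^ j * Δ ≤ (nb G R v).card)).card)
    exact (mem_filter.1 hv).2.trans ((card_le_card (nb_subset G R v)).trans hRM.le)
  obtain ⟨hk1, hk2, hk3⟩ := hw_spec (H := H) (M := M) (d := d) (Δ := Δ) (j := j) (by omega) hjM
  set w := hw H M d Δ j with hwdef
  set k := w * (2 ^ j * Δ) / M with hkdef
  set t := 2 ^ j * Δ with htdef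
  have hΔt : Δ ≤ t := Nat.le_mul_of_pos_left _ (by positivity)
  have ht2 : 2 ^ (j + 1) * Δ = 2 * t := by
    rw [htdef, pow_succ]
    ring
  rw [ht2] at hk1 hOd
  obtain ⟨G', Ob, Y, hGG, hYR, hYc, hOb1, hkOb, hXO, hlow⟩ := hosts_build hG (M := M) (t := t)
    (k := k) (w := w) (σ := σ) (Rb := Rc (2 * t)) O R
    (fun v hv => (mem_sdiff.1 (hO hv)).2) hM1 (by omega) (by omega) hσ1 hk3 hRM.le (by omega)
    hOw (by
      intro x hxR hxk
      by_contra hc
      push Not at hc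
      obtain ⟨I, hI, hIc, e3⟩ := (hEB (2 * t) _ hc.le).image
      have hIn : I.card ≤ (Cr H M (2 * t)).card := hIc.trans (card_le_card inter_subset_left)
      have hnq' := hnq (2 * t)
      obtain ⟨Z, hZ, hZc, hsep⟩ := pick G (nb G O x) I 2 (qf H M d (2 * t))
        (fun y hy => nb_PP hG (mem_Pd.1 (hI hy)).2.1 (mem_Pd.1 (hI hy)).2.2 _
          (fun z hz => (mem_nb.1 hz).2)) (by
            have := Nat.mul_le_mul_right 3 hIn
            omega)
      have e1 := hEA (2 * t) Z hZc.ge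
      refine hcore (2 * t) R' (by omega) (by omega) ?_ (Z ∪ I) ?_ (e1.union e3 hsep.symm)
      · intro y hy
        have := (card_le_card (nb_mono G hR' y)).trans (hRd y (hR' hy))
        omega
      · intro y hy
        rcases mem_union.1 hy with hy | hy
        · exact hOd y (nb_subset G O x (hZ hy))
        · have := (card_le_card (nb_mono G hR' y)).trans
            (hRd y (Pd_subset G R x (hI hy)))
          omega) (by
      have h1 : 4 * (549755813888 * (σ ^ 2 * Rc (2 * t))) ≤ 4 * (k * t ^ 2) := by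
        calc 4 * (549755813888 * (σ ^ 2 * Rc (2 * t)))
            = 2199023255552 * (σ ^ 2 * Rc (2 * t)) := by ring
          _ ≤ E * t ^ 2 := hR t (by omega)
          _ ≤ 4 * k * t ^ 2 := Nat.mul_le_mul_right _ (by omega)
          _ = _ := by ring
      exact Nat.le_of_mul_le_mul_left h1 (by norm_num))
  -- the process
  obtain ⟨J, hJ1, hJ2⟩ := exists_scale E Δ (by omega) hcase
  have hxi : ∀ i < J, 2 ^ (i + 1) * E ≤ 2 * t := by
    intro i hi
    have h1 : 2 ^ (i + 1) * E ≤ 2 ^ J * E :=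
      Nat.mul_le_mul_right _ (Nat.pow_le_pow_right (by norm_num) (by omega))
    omega
  have hxE : ∀ i, E ≤ 2 ^ (i + 1) * E := fun i => Nat.le_mul_of_pos_left _ (by positivity)
  have hx2 : ∀ i, 2 ^ i * (2 * E) = 2 ^ (i + 1) * E := by
    intro i
    rw [pow_succ]
    ring
  have hq2 : ∀ i, 64 * ((Cr H M (2 ^ i * (2 * E))).card * d) + ed d =
      qf H M d (2 ^ (i + 1) * E) := by
    intro i
    rw [hx2, qf]
  obtain ⟨O', X, c, hX, hInv, hXd, hXc⟩ := nprocess (J := J)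
    (q := fun i => 64 * ((Cr H M (2 ^ i * (2 * E))).card * d) + ed d) (Rc := fun i => Rc (2 ^ (i + 1) * E))
    hG hGG hσ1 hM1 hE64 (H := H) (X₀ := Y)
    (fun i _ X hX hdeg hXc => by
      have hnoX := hcore (2 ^ (i + 1) * E) X (by have := hxE i; omega) hXc hdeg X hdeg
      refine ⟨_, _, (Cr H M (2 ^ (i + 1) * E)).card, ?_, card_le_card inter_subset_left,
        card_le_card inter_subset_left, ?_, hEB _, hBσ _, hnoX⟩
      · show _ ≤ 64 * ((Cr H M (2 ^ i * (2 * E))).card * d) + ed d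
        rw [hq2]
        exact hnq _
      · show EA H G _ (64 * ((Cr H M (2 ^ i * (2 * E))).card * d) + ed d)
        rw [hq2]
        exact hEA _)
    (fun i _ => by
      show 65536 * (64 * ((Cr H M (2 ^ i * (2 * E))).card * d) + ed d) ≤ _
      rw [hq2]
      exact hqs _ (hxE i))
    (by omega)
    (fun i hi => by
      show 32 * (M * (64 * ((Cr H M (2 ^ i * (2 * E))).card * d) + ed d)) ≤ _
      rw [hq2]
      have h1 := qf_mono H M d (hxi i hi)
      have h2 : 256 * (M * qf H M d (2 ^ (i + 1) * E)) ≤ M * k := by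
        calc 256 * (M * qf H M d (2 ^ (i + 1) * E)) = M * (256 * qf H M d (2 ^ (i + 1) * E)) := by
              ring
          _ ≤ M * k := Nat.mul_le_mul_left _ (by omega)
      have h3 : M * k = k * M := Nat.mul_comm _ _
      omega)
    (rem_sum (by omega) h.hμ hdμ1 (by omega) (by omega) (fun i _ => by
      have e1 : 2 ^ (i + 1) * E = 2 * (2 ^ i * E) := by
        rw [pow_succ]
        ring
      have e2 : E ≤ 2 ^ i * E := Nat.le_mul_of_pos_left _ (by positivity)
      show 2097152 * (σ ^ 2 * Rc (2 ^ (i + 1) * E)) ≤ _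
      rw [e1]
      calc 2097152 * (σ ^ 2 * Rc (2 * (2 ^ i * E)))
          ≤ 2199023255552 * (σ ^ 2 * Rc (2 * (2 ^ i * E))) :=
            Nat.mul_le_mul_right _ (by norm_num)
        _ ≤ E * (2 ^ i * E) ^ 2 := hR _ e2
        _ ≤ _ := Nat.mul_le_mul_left _ (Nat.pow_le_pow_left (by omega) 2)))
    ((card_le_card hYR).trans hRM.le) (by omega) hOb1 hXO hlow (Inv.start G' Ob Y t M)
    (fun x hx => ((card_le_card (nb_mono G hYR x)).trans (hRd x (hYR hx))).trans hJ1)
  have h1 : Y.card - X.card ≤ (Y \ X).card := le_card_sdiff X Y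
  exact fin X (by omega) hXd

theorem cstep [Nonempty W] [Fintype V] {G : SimpleGraph W} (hG : ¬ H5.IsContained G)
    {H : SimpleGraph V} {A B : Finset V} {d σ M μ r : ℕ} (h : CDat H A B d σ M μ r)
    (hEB : ∀ P' ⊆ B, EA H G P' r) (U : Finset W) (hU : 256 * M ≤ U.card) :
    ∃ Z : Finset W, Emb H G univ Z := by
  have hσ1 := h.hσ1
  have hd1 := h.hd1
  have hμ1 := h.hμ1
  have hMμ := h.hMμ
  have hMe := h.hMe
  have hσμ := h.hσμ
  have hV := h.hVμ
  have hdμ1 : 1 ≤ d * μ := Nat.mul_pos hd1 hμ1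
  have hμd : μ ≤ d * μ := Nat.le_mul_of_pos_left μ hd1
  have hM1 : 1 ≤ M := by omega
  have hed : 1 ≤ ed d := by
    rw [ed]
    omega
  set E := M / (16 * σ) with hEdef
  have hσE : 16 * (σ * E) ≤ M := by
    calc 16 * (σ * E) = 16 * σ * (M / (16 * σ)) := by rw [hEdef]; ring
      _ ≤ M := Nat.mul_div_le _ _
  have hE2048 : 2048 * σ ≤ E := by
    rw [hEdef, Nat.le_div_iff_mul_le (by omega)]
    have : 2048 * σ * (16 * σ) = 32768 * σ ^ 2 := by ring
    omega
  have hE64 : 64 * σ ≤ E := by omega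
  have hEe : 131072 * ed d ≤ E := by
    rw [hEdef, Nat.le_div_iff_mul_le (by omega)]
    have : 131072 * ed d * (16 * σ) = 2097152 * (σ * ed d) := by ring
    omega
  have hMσE : M ≤ 32 * (σ * E) := by
    have h1 : M < 16 * σ * (E + 1) := Nat.lt_mul_div_succ M (by omega)
    have h2 : 16 * σ * (E + 1) ≤ 16 * σ * (2 * E) := Nat.mul_le_mul_left _ (by omega)
    have h3 : 16 * σ * (2 * E) = 32 * (σ * E) := by ring
    omega
  have hE3 : 2199023255552 * (σ ^ 2 * r) ≤ E ^ 3 := by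
    have h1 : 32768 * σ ^ 3 * (35184372088832 * (σ ^ 2 * r)) ≤ 32768 * σ ^ 3 * E ^ 3 := by
      calc 32768 * σ ^ 3 * (35184372088832 * (σ ^ 2 * r))
          = 1152921504606846976 * (σ ^ 5 * r) := by ring
        _ ≤ M ^ 3 := h.hN
        _ ≤ (32 * (σ * E)) ^ 3 := Nat.pow_le_pow_left hMσE 3
        _ = _ := by ring
    have h2 := Nat.le_of_mul_le_mul_left h1 (Nat.mul_pos (by norm_num) (Nat.pow_pos hσ1))
    omega
  have hEE : 1 ≤ E := by omega
  refine cgen hG (E := E) ⟨hd1, h.hAD, h.hσ.mono (subset_univ _) le_rfl, h.hcov, hσ1, hμ1, h.hVμ,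
    h.hμ, hMμ, hE2048, hEe⟩ (fun _ => r) (fun x => hEB _ inter_subset_right) ?_ ?_ U hU
  · intro t ht
    calc 2199023255552 * (σ ^ 2 * r) ≤ E ^ 3 := hE3
      _ = E * E ^ 2 := by ring
      _ ≤ _ := Nat.mul_le_mul_left _ (Nat.pow_le_pow_left ht 2)
  · intro hno X hX hXd
    exact hno X (embed_degenerate H G univ σ h.hσ X E hXd (by rw [card_univ]; omega))

end

end Pool.Agent.RamseyH5
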