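import Pool.Agent.RamseyH5C.Part

set_option autoImplicit false

/-!
# Adding a small set of arbitrary vertices
-/

namespace Pool.Agent.RamseyH5

open Finset

section

open scoped Classical

variable {V W : Type}

/-- Data of the graph to be embedded. -/
structure PDat (H : SimpleGraph V) (S A B : Finset V) (s d D M μ : ℕ) [Fintype V] : Prop where
  hs1 : 1 ≤ s
  hd1 : 1 ≤ d
  hD1 : 1 ≤ D
  hμ1 : 1 ≤ μ
  hS : S.card ≤ s
  hAD : Dg H A d
  hBD : Dg H B D
  hcov : ∀ v, v ∈ S ∪ (A ∪ B)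
  hVμ : Fintype.card V ≤ μ
  hμ : ∑ v : V, (univ.filter (fun u => H.Adj v u)).card ≤ μ
  hMμ : 33554432 * (d * μ) ≤ M
  hMe : 4194304 * (s * ed d) ≤ M
  hMs : 144115188075855872 * s ^ 5 ≤ M ^ 2
  hMsD : 144115188075855872 * (s ^ 3 * D ^ 2) ≤ M ^ 2
  hMD : 262144 * (s * D) ≤ M

/-- A large set of small maximum degree. -/
theorem phase1 [Nonempty W] [Fintype V] {G : SimpleGraph W} (hG : ¬ H5.IsContained G)
    {H : SimpleGraph V} {S A B : Finset V} {s d D M μ : ℕ} (h : PDat H S A B s d D M μ)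
    (hno : ∀ Z : Finset W, ¬ Emb H G univ Z) (U : Finset W) (hU : 256 * M ≤ U.card) :
    ∃ X : Finset W, 7 * M ≤ 16 * X.card ∧ ∀ x ∈ X, (nb G X x).card ≤ M / (64 * s) := by
  have hs1 := h.hs1
  have hd1 := h.hd1
  have hD1 := h.hD1
  have hMs := h.hMs
  have hMsD := h.hMsD
  have hMD := h.hMD
  have hMμ := h.hMμ
  have hMe := h.hMe
  have hμ1 := h.hμ1
  have hμd : μ ≤ d * μ := Nat.le_mul_of_pos_left μ hd1
  have hed : 1 ≤ ed d := by
    rw [ed]
    omega
  have hM1 : 1 ≤ M := by omega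
  have hs45 : s ^ 4 ≤ s ^ 5 := Nat.pow_le_pow_right hs1 (by norm_num)
  have hMs2 : 268435456 * s ^ 2 ≤ M := by
    by_contra hc
    push Not at hc
    have h1 := Nat.pow_lt_pow_left hc (n := 2) (by norm_num)
    have h2 : (268435456 * s ^ 2) ^ 2 = 72057594037927936 * s ^ 4 := by ring
    omega
  set E1 := M / (64 * s) with hE1
  have hE1low : 2048 * (s + D) ≤ E1 := by
    rw [hE1, Nat.le_div_iff_mul_le (by omega)]
    have h1 : 2048 * (s + D) * (64 * s) = 131072 * s ^ 2 + 131072 * (s * D) := by ring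
    omega
  have hE1e : 32768 * ed d ≤ E1 := by
    rw [hE1, Nat.le_div_iff_mul_le (by omega)]
    have h1 : 32768 * ed d * (64 * s) = 2097152 * (s * ed d) := by ring
    omega
  have hE1c : 8589934592 * (s + D) ^ 2 * M ≤ E1 ^ 3 := by
    have h1 : M ≤ 128 * s * E1 := by
      have h2 : M < 64 * s * (E1 + 1) := Nat.lt_mul_div_succ M (by omega)
      have h3 : 64 * s * (E1 + 1) ≤ 64 * s * (2 * E1) := Nat.mul_le_mul_left _ (by omega)
      have h4 : 64 * s * (2 * E1) = 128 * s * E1 := by ring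
      omega
    have h2 : (s + D) ^ 2 ≤ 2 * s ^ 2 + 2 * D ^ 2 := by
      nlinarith [sq_nonneg ((s : ℤ) - D), Nat.le_total s D]
    have h4 : s ^ 3 * (s + D) ^ 2 ≤ 2 * s ^ 5 + 2 * (s ^ 3 * D ^ 2) := by
      calc s ^ 3 * (s + D) ^ 2 ≤ s ^ 3 * (2 * s ^ 2 + 2 * D ^ 2) := Nat.mul_le_mul_left _ h2
        _ = _ := by ring
    have h6 : 18014398509481984 * (s ^ 3 * (s + D) ^ 2) ≤ M ^ 2 := by omega
    have h7 : 2097152 * s ^ 3 * (8589934592 * (s + D) ^ 2 * M) ≤ 2097152 * s ^ 3 * E1 ^ 3 := by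
      calc 2097152 * s ^ 3 * (8589934592 * (s + D) ^ 2 * M)
          = M * (18014398509481984 * (s ^ 3 * (s + D) ^ 2)) := by ring
        _ ≤ M * M ^ 2 := Nat.mul_le_mul_left _ h6
        _ = M ^ 3 := by ring
        _ ≤ (128 * s * E1) ^ 3 := Nat.pow_le_pow_left h1 3
        _ = _ := by ring
    exact Nat.le_of_mul_le_mul_left h7 (by positivity)
  have hE1c' : 1048576 * (s + D) ^ 2 * M ≤ E1 ^ 3 := by
    have h1 : 1048576 * (s + D) ^ 2 * M = 1048576 * ((s + D) ^ 2 * M) := by ring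
    have h2 : 8589934592 * (s + D) ^ 2 * M = 8589934592 * ((s + D) ^ 2 * M) := by ring
    omega
  obtain ⟨Δ, hf, R, hR, hRd⟩ := exists_extremal G U M hM1 (by omega)
  rcases Nat.lt_or_ge E1 Δ with hcase | hcase
  swap
  · exact ⟨R, by omega, fun x hx => (hRd x hx).trans hcase⟩
  have hΔE : E1 ^ 3 ≤ Δ ^ 3 := Nat.pow_le_pow_left hcase.le 3
  have hsub : ∀ P : Finset V, P ⊆ (P ∩ A) ∪ ((P ∩ S) ∪ (P ∩ B)) := by
    intro P x hx
    have := h.hcov x
    simp only [mem_union, mem_inter] at this ⊢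
    tauto
  have nohost : ∀ R' ⊆ R, M ≤ 8 * R'.card → ∀ Q : Finset W,
      (∀ x ∈ Q, (nb G R' x).card ≤ Δ) → Q.card < 64 * M := by
    intro R' hR' hR'c Q₀ hQ₀
    by_contra hc
    push Not at hc
    obtain ⟨Q, hQ, hQc⟩ := exists_subset_card_eq hc
    have hQd : ∀ x ∈ Q, (nb G R' x).card ≤ Δ := fun x hx => hQ₀ x (hQ hx)
    obtain ⟨P, -, hPM, hP⟩ := core' hno hM1 h.hVμ h.hμ (by omega) R' Δ (by omega) hR'c
      (fun x hx => (card_le_card (nb_mono G hR' x)).trans (hRd x (hR' hx)))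
    have hnoQ := hP _ (hsub P) Q hQd
    have hP1 : 1 ≤ P.card := by
      by_contra h0
      have hP0 : P = ∅ := card_eq_zero.1 (by omega)
      refine hP P subset_rfl Q hQd ?_
      rw [hP0]
      exact Emb_empty H G Q
    have hq : 16384 * (64 * (P.card * d) + ed d) ≤ Δ := q_small hμ1 hMμ hPM (by omega)
    have hfQ := hf Q
    refine hnoQ (gjoin_core hG H (P ∩ A) ((P ∩ S) ∪ (P ∩ B)) P.card
      (64 * (P.card * d) + ed d) (s + D) Δ (by omega) hP1 (le_q hd1)
      (card_le_card inter_subset_left)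
      (card_le_card (union_subset inter_subset_left inter_subset_left))
      (embA hG hd1 h.hAD inter_subset_right (card_le_card inter_subset_left))
      (Dg_union (h.hBD.mono inter_subset_right le_rfl)
        ((card_le_card inter_subset_right).trans h.hS)) Q (by omega) (by omega) (by omega)
      (by omega) ?_)
    rw [hQc]
    calc 32768 * (s + D) ^ 2 * (64 * M) = 2097152 * ((s + D) ^ 2 * M) := by ring
      _ ≤ 8589934592 * ((s + D) ^ 2 * M) := Nat.mul_le_mul_right _ (by norm_num)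
      _ = 8589934592 * (s + D) ^ 2 * M := by ring
      _ ≤ Δ ^ 3 := hE1c.trans hΔE
  have hsumR : ∑ x ∈ R, (Pd G R x).card ≤ M * M := by
    calc ∑ x ∈ R, (Pd G R x).card ≤ ∑ _x ∈ R, M :=
          sum_le_sum fun x _ => (card_le_card (Pd_subset G R x)).trans hR.le
      _ = M * M := by rw [sum_const, smul_eq_mul, hR]
  obtain ⟨O, Y, hYR, hYc, hOc, hYO, hOP⟩ := hosts_gen hG hM1 (by omega) R U hR hU (s + D)
    (hE1c.trans hΔE) hsumR nohost
  have hsrc : GSrc H G (s + D) M E1 Y := by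
    intro X _ Dc hDc hdeg hXc
    obtain ⟨P, -, hPM, hP⟩ := core' hno hM1 h.hVμ h.hμ (by omega) X Dc (by omega) hXc hdeg
    exact ⟨P ∩ A, (P ∩ S) ∪ (P ∩ B), P.card, 64 * (P.card * d) + ed d,
      q_small hμ1 hMμ hPM (by omega), le_q hd1, card_le_card inter_subset_left,
      card_le_card (union_subset inter_subset_left inter_subset_left),
      embA hG hd1 h.hAD inter_subset_right (card_le_card inter_subset_left),
      Dg_union (h.hBD.mono inter_subset_right le_rfl)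
        ((card_le_card inter_subset_right).trans h.hS), hP _ (hsub P) X hdeg⟩
  obtain ⟨O', X, c, hX, hInv, hXd, hXc⟩ := gprocess (D₀ := Δ) hG (by omega) hM1
    hsrc (Dend := E1) hE1c' (by omega) hcase.le le_rfl
    ((card_le_card hYR).trans hR.le) (by omega) hOc hYO
    (fun v hv X hX hc => low_half R X v (s + D) (s + D) Δ le_rfl (hX.trans hYR) (by omega)
      (hOP v hv) hc) (Inv.start G O Y Δ M)
    (fun x hx => (card_le_card (nb_mono G hYR x)).trans (hRd x (hYR hx)))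
  have h1 : Y.card - X.card ≤ (Y \ X).card := le_card_sdiff X Y
  exact ⟨X, by omega, hXd⟩

/-- Adding `S`. -/
theorem withS [Nonempty W] [Fintype V] {G : SimpleGraph W} (hG : ¬ H5.IsContained G)
    {H : SimpleGraph V} {S A B : Finset V} {s d D M μ : ℕ} (h : PDat H S A B s d D M μ)
    (hfree : ∀ Y : Finset W, M ≤ 8 * Y.card → Emb H G (univ \ S) Y)
    (U : Finset W) (hU : 256 * M ≤ U.card) : ∃ Z : Finset W, Emb H G univ Z := by
  by_contra hcon
  push Not at hcon
  have hno : ∀ Z : Finset W, ¬ Emb H G univ Z := hcon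
  have hs1 := h.hs1
  have hMs := h.hMs
  have hμ1 := h.hμ1
  have hMμ := h.hMμ
  have hμd : μ ≤ d * μ := Nat.le_mul_of_pos_left μ h.hd1
  obtain ⟨X, hXc, hXd⟩ := phase1 hG h hno U hU
  have hs45 : s ^ 2 ≤ s ^ 5 := Nat.pow_le_pow_right hs1 (by norm_num)
  have hsM : s ≤ M / 64 := by
    rw [Nat.le_div_iff_mul_le (by norm_num)]
    by_contra hc
    push Not at hc
    have h1 := Nat.pow_lt_pow_left hc (n := 2) (by norm_num)
    have h2 : (s * 64) ^ 2 = 4096 * s ^ 2 := by ring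
    omega
  have hsE1 : s * (M / (64 * s)) ≤ M / 64 := by
    rw [Nat.le_div_iff_mul_le (by norm_num)]
    calc s * (M / (64 * s)) * 64 = 64 * s * (M / (64 * s)) := by ring
      _ ≤ M := Nat.mul_div_le _ _
  obtain ⟨XS, Y, hY, hYc, hsep, hXS⟩ := embedS (G := G) h.hS hsM hsE1 X (by omega) hXd
  have e1 := hfree Y (by omega)
  have e2 := hXS.union e1 hsep
  refine hno _ (e2.subset ?_)
  intro x _
  rw [mem_union, mem_sdiff]
  by_cases hx : x ∈ S
  · exact Or.inl hx
  · exact Or.inr ⟨mem_univ x, hx⟩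

/-- The part of `A` in a subtype. -/
theorem Dg_part {H : SimpleGraph V} {A : Finset V} {d : ℕ} (h : Dg H A d) (P : Finset V) :
    Dg (Sub H P) (univ.filter (fun v : {x // x ∈ P} => v.1 ∈ A)) d := by
  intro T hT hne
  obtain ⟨v, hv, hc⟩ := h (T.map (Function.Embedding.subtype _)) (by
    intro x hx
    obtain ⟨u, hu, rfl⟩ := mem_map.1 hx
    exact (mem_filter.1 (hT hu)).2) hne.map
  obtain ⟨u, hu, rfl⟩ := mem_map.1 hv
  exact ⟨u, hu, (sub_filter_card H P T u).trans hc⟩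

end

end Pool.Agent.RamseyH5
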